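import Mathlib

/-!
# Frobenius-stable subspaces on which a form is nondegenerate
-/

namespace Pool.Agent.MP_f8720a_ag

open Polynomial

/-- The reciprocal of an irreducible polynomial different from `X` is irreducible. -/
theorem irreducible_reverse {F : Type} [Field F] {f : F[X]} (hf : Irreducible f) (h0 : f.coeff 0 ≠ 0) :
    Irreducible f.reverse := by
  have htd : ∀ p : F[X], p.coeff 0 ≠ 0 → p.reverse.natDegree = p.natDegree := by
    intro p hp
    have h1 : p.natTrailingDegree = 0 := natTrailingDegree_eq_zero.2 (Or.inr hp)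
    rw [reverse_natDegree, h1, Nat.sub_zero]
  have hrr : f.reverse.reverse = f := by
    ext n
    rw [coeff_reverse, coeff_reverse, htd f h0, revAt_invol]
  have hpos : 0 < f.natDegree := hf.natDegree_pos
  refine ⟨fun hu => ?_, fun a b hab => ?_⟩
  · have h1 := natDegree_eq_zero_of_isUnit hu
    rw [htd f h0] at h1
    omega
  · have h1 : (a * b).coeff 0 ≠ 0 := by
      rw [← hab, coeff_zero_reverse]
      exact leadingCoeff_ne_zero.2 hf.ne_zero
    rw [mul_coeff_zero] at h1
    have ha0 : a.coeff 0 ≠ 0 := left_ne_zero_of_mul h1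
    have hb0 : b.coeff 0 ≠ 0 := right_ne_zero_of_mul h1
    have h2 : f = a.reverse * b.reverse := by
      rw [← reverse_mul_of_domain, ← hab, hrr]
    have key : ∀ p : F[X], p.coeff 0 ≠ 0 → IsUnit p.reverse → IsUnit p := by
      intro p hp hu
      have h3 := natDegree_eq_zero_of_isUnit hu
      rw [htd p hp] at h3
      rw [eq_C_of_natDegree_eq_zero h3]
      exact isUnit_C.2 (isUnit_iff_ne_zero.2 hp)
    rcases hf.isUnit_or_isUnit h2 with h | h
    · exact Or.inl (key a ha0 h)
    · exact Or.inr (key b hb0 h)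

section

variable {F V : Type} [Field F] [AddCommGroup V] [Module F V]

/-- The condition on the Frobenius `φ` and a stable subspace `W` of the cohomology `V`: for every
irreducible polynomial `f` which occurs in `W` the `f`-primary part of `V` is simple (its dimension
is at most the degree of `f`), and the reciprocal polynomial occurs in `W` as well. -/
def Balanced (φ : Module.End F V) (W : Submodule F V) : Prop :=
  ∀ f : F[X], Irreducible f → (∃ x ∈ W, x ≠ 0 ∧ aeval φ f x = 0) →
    Module.finrank F (LinearMap.ker (aeval φ f ^ 2)) ≤ f.natDegree ∧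
      ∃ y ∈ W, y ≠ 0 ∧ aeval φ f.reverse y = 0

theorem aeval_mem {φ : Module.End F V} {W : Submodule F V} (hW : ∀ w ∈ W, φ w ∈ W) (p : F[X]) :
    ∀ w ∈ W, aeval φ p w ∈ W := by
  intro w hw
  induction p using Polynomial.induction_on' with
  | add p q hp hq =>
    rw [map_add, LinearMap.add_apply]
    exact W.add_mem hp hq
  | monomial n c =>
    rw [aeval_monomial, Module.End.mul_apply, Module.algebraMap_end_apply]
    refine W.smul_mem c ?_
    induction n with
    | zero => exact hw
    | succ n ih =>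
      rw [pow_succ', Module.End.mul_apply]
      exact hW _ ih

/-- A stable subspace different from zero contains a vector killed by an irreducible polynomial. -/
theorem exists_irreducible [FiniteDimensional F V] {φ : Module.End F V} {W : Submodule F V}
    (hW : ∀ w ∈ W, φ w ∈ W) {x : V} (hx : x ∈ W) (hx0 : x ≠ 0) :
    ∃ f : F[X], Irreducible f ∧ ∃ y ∈ W, y ≠ 0 ∧ aeval φ f y = 0 := by
  have key : ∀ p : F[X], p ≠ 0 → ∀ x ∈ W, x ≠ 0 → aeval φ p x = 0 →
      ∃ f : F[X], Irreducible f ∧ ∃ y ∈ W, y ≠ 0 ∧ aeval φ f y = 0 := by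
    intro p
    refine WfDvdMonoid.induction_on_irreducible (motive := fun p => p ≠ 0 → ∀ x ∈ W, x ≠ 0 →
      aeval φ p x = 0 → ∃ f : F[X], Irreducible f ∧ ∃ y ∈ W, y ≠ 0 ∧ aeval φ f y = 0) p ?_ ?_ ?_
    · exact fun h => absurd rfl h
    · rintro u hu - x - hx0 h
      obtain ⟨v, hv⟩ := hu.exists_left_inv
      exfalso
      apply hx0
      have h1 := congrArg (fun q => aeval φ q x) hv
      simp only [map_mul, Module.End.mul_apply, h, map_zero, map_one, Module.End.one_apply] at h1
      exact h1.symm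
    · rintro a i ha hi ih - x hx hx0 h
      rw [map_mul, Module.End.mul_apply] at h
      by_cases h1 : aeval φ a x = 0
      · exact ih ha x hx hx0 h1
      · exact ⟨i, hi, _, aeval_mem hW a x hx, h1, h⟩
  refine key (minpoly F φ) (minpoly.ne_zero (Algebra.IsIntegral.isIntegral φ)) x hx hx0 ?_
  rw [minpoly.aeval, LinearMap.zero_apply]

/-- A simple primary part is generated by any of its vectors. -/
theorem primary_le [FiniteDimensional F V] {φ : Module.End F V} {W : Submodule F V}
    (hW : ∀ w ∈ W, φ w ∈ W) {f : F[X]} (hf : Irreducible f)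
    (hd : Module.finrank F (LinearMap.ker (aeval φ f ^ 2)) ≤ f.natDegree) {y : V} (hy : y ∈ W)
    (hy0 : y ≠ 0) (hfy : aeval φ f y = 0) :
    LinearMap.ker (aeval φ f ^ 2) ≤ W ∧ LinearMap.ker (aeval φ f ^ 2) ≤ LinearMap.ker (aeval φ f) := by
  let L : degreeLT F f.natDegree →ₗ[F] V :=
    ((LinearMap.applyₗ y).comp (aeval φ : F[X] →ₐ[F] Module.End F V).toLinearMap).comp
      (degreeLT F f.natDegree).subtype
  have hL : ∀ p, L p = aeval φ (p : F[X]) y := fun p => rfl
  have hinj : Function.Injective L := by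
    rw [injective_iff_map_eq_zero]
    rintro ⟨p, hp⟩ h
    rw [hL] at h
    apply Subtype.ext
    by_contra hp0
    have hp0 : p ≠ 0 := hp0
    have hdeg : p.degree < f.degree := by
      rw [mem_degreeLT] at hp
      rwa [degree_eq_natDegree hf.ne_zero]
    have hcop : IsCoprime f p := by
      refine (hf.coprime_iff_not_dvd).2 fun hdvd => ?_
      exact absurd (degree_le_of_dvd hdvd hp0) (not_le.2 hdeg)
    obtain ⟨a, b, hab⟩ := hcop
    apply hy0
    have h1 := congrArg (fun q => aeval φ q y) hab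
    simp only [map_add, map_mul, LinearMap.add_apply, Module.End.mul_apply, hfy, h, map_zero,
      map_one, Module.End.one_apply, add_zero] at h1
    exact h1.symm
  have hrank : Module.finrank F (LinearMap.range L) = f.natDegree := by
    rw [LinearMap.finrank_range_of_inj hinj, (degreeLTEquiv F f.natDegree).finrank_eq,
      Module.finrank_fin_fun]
  have hker : LinearMap.range L ≤ LinearMap.ker (aeval φ f) := by
    rintro _ ⟨p, rfl⟩
    rw [hL, LinearMap.mem_ker, ← Module.End.mul_apply, ← map_mul, mul_comm, map_mul,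
      Module.End.mul_apply, hfy, map_zero]
  have hker2 : LinearMap.ker (aeval φ f) ≤ LinearMap.ker (aeval φ f ^ 2) := by
    intro x hx
    rw [LinearMap.mem_ker] at hx ⊢
    rw [pow_two, Module.End.mul_apply, hx, map_zero]
  have heq : LinearMap.range L = LinearMap.ker (aeval φ f ^ 2) :=
    Submodule.eq_of_le_of_finrank_le (hker.trans hker2) (by rw [hrank]; exact hd)
  refine ⟨?_, ?_⟩
  · rw [← heq]
    rintro _ ⟨p, rfl⟩
    rw [hL]
    exact aeval_mem hW _ _ hy
  · rw [← heq]
    exact hker

/-- For an isometry `φ`, vectors killed by `f(φ)` are orthogonal to the image of `f*(φ)`. -/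
theorem orthogonal_reverse (B : V →ₗ[F] V →ₗ[F] F) {φ : Module.End F V}
    (hB : ∀ x y, B (φ x) (φ y) = B x y) (f : F[X]) {x : V} (hx : aeval φ f x = 0) (z : V) :
    B x (aeval φ f.reverse z) = 0 := by
  have hpow : ∀ (n : ℕ) (a b : V), B ((φ ^ n) a) ((φ ^ n) b) = B a b := by
    intro n
    induction n with
    | zero => intro a b; simp
    | succ n ih =>
      intro a b
      rw [pow_succ', Module.End.mul_apply, Module.End.mul_apply, hB, ih]
  have h1 : aeval φ f.reverse z = ∑ k ∈ Finset.range (f.natDegree + 1),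
      f.reverse.coeff k • (φ ^ k) z := by
    rw [aeval_eq_sum_range' (Nat.lt_succ_of_le (reverse_natDegree_le f)), LinearMap.sum_apply]
    rfl
  have h2 : aeval φ f x = ∑ k ∈ Finset.range (f.natDegree + 1), f.coeff k • (φ ^ k) x := by
    rw [aeval_eq_sum_range, LinearMap.sum_apply]
    rfl
  have h3 : B x (aeval φ f.reverse z) = B (aeval φ f x) ((φ ^ f.natDegree) z) := by
    rw [h1, h2, map_sum, map_sum, LinearMap.sum_apply, ← Finset.sum_range_reflect]
    refine Finset.sum_congr rfl fun k hk => ?_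
    have hk : k ≤ f.natDegree := Nat.lt_succ_iff.1 (Finset.mem_range.1 hk)
    rw [map_smul, map_smul, LinearMap.smul_apply, coeff_reverse, smul_eq_mul, smul_eq_mul]
    have e1 : f.natDegree + 1 - 1 - k = f.natDegree - k := by omega
    rw [e1, revAt_le (Nat.sub_le _ _), Nat.sub_sub_self hk, ← hpow k x, ← Module.End.mul_apply (φ ^ k),
      ← pow_add, Nat.add_sub_cancel' hk]
  rw [h3, hx, map_zero, LinearMap.zero_apply]

/-- **A balanced subspace is nondegenerate.** -/
theorem balanced_nondeg [FiniteDimensional F V] (B : V →ₗ[F] V →ₗ[F] F) {φ : Module.End F V}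
    (hB : ∀ x y, B (φ x) (φ y) = B x y) (hnd : ∀ x, (∀ y, B x y = 0) → x = 0)
    {W : Submodule F V} (hW : ∀ w ∈ W, φ w ∈ W) (hbal : Balanced φ W) :
    ∀ w ∈ W, (∀ w' ∈ W, B w w' = 0) → w = 0 := by
  have hinj : Function.Injective φ := by
    rw [injective_iff_map_eq_zero]
    intro x hx
    refine hnd x fun y => ?_
    rw [← hB, hx, map_zero, LinearMap.zero_apply]
  have hsurj : ∀ w ∈ W, ∃ w' ∈ W, φ w' = w := by
    have h1 : Function.Injective (φ.restrict hW) := by
      rw [injective_iff_map_eq_zero]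
      rintro ⟨x, hx⟩ h
      apply Subtype.ext
      have h2 : φ x = 0 := congrArg Subtype.val h
      exact (map_eq_zero_iff _ hinj).1 h2
    have h2 := LinearMap.surjective_of_injective h1
    intro w hw
    obtain ⟨⟨w', hw'⟩, h⟩ := h2 ⟨w, hw⟩
    exact ⟨w', hw', congrArg Subtype.val h⟩
  let R : Submodule F V :=
    { carrier := {w | w ∈ W ∧ ∀ w' ∈ W, B w w' = 0}
      zero_mem' := ⟨W.zero_mem, fun w' _ => by rw [map_zero, LinearMap.zero_apply]⟩
      add_mem' := fun {a b} ha hb => ⟨W.add_mem ha.1 hb.1, fun w' hw' => by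
        rw [map_add, LinearMap.add_apply, ha.2 w' hw', hb.2 w' hw', add_zero]⟩
      smul_mem' := fun c a ha => ⟨W.smul_mem c ha.1, fun w' hw' => by
        rw [map_smul, LinearMap.smul_apply, ha.2 w' hw', smul_zero]⟩ }
  have hR : ∀ w ∈ R, φ w ∈ R := by
    rintro w ⟨h1, h2⟩
    refine ⟨hW w h1, fun w' hw' => ?_⟩
    obtain ⟨w'', hw'', rfl⟩ := hsurj w' hw'
    rw [hB]
    exact h2 w'' hw''
  intro w hw hw'
  by_contra hw0
  obtain ⟨f, hf, x, ⟨hxW, hxo⟩, hx0, hfx⟩ := exists_irreducible hR (x := w) ⟨hw, hw'⟩ hw0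
  obtain ⟨-, y, hyW, hy0, hgy⟩ := hbal f hf ⟨x, hxW, hx0, hfx⟩
  have hf0 : f.coeff 0 ≠ 0 := by
    intro h
    obtain ⟨g, hg⟩ := X_dvd_iff.2 h
    rcases hf.isUnit_or_isUnit hg with h1 | h1
    · exact not_isUnit_X h1
    · obtain ⟨v, hv⟩ := h1.exists_right_inv
      apply hx0
      have h2 : aeval φ (X : F[X]) x = 0 := by
        have h3 : (X : F[X]) = v * f := by rw [hg, mul_comm X g, ← mul_assoc, mul_comm v g, hv, one_mul]
        rw [h3, map_mul, Module.End.mul_apply, hfx, map_zero]
      rw [aeval_X] at h2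
      exact (map_eq_zero_iff _ hinj).1 h2
  have hg := irreducible_reverse hf hf0
  obtain ⟨hd, -⟩ := hbal _ hg ⟨y, hyW, hy0, hgy⟩
  obtain ⟨h1, h2⟩ := primary_le hW hg hd hyW hy0 hgy
  have hdis : Disjoint (LinearMap.ker (aeval φ f.reverse)) (LinearMap.range (aeval φ f.reverse)) := by
    rw [Submodule.disjoint_def]
    rintro _ ha ⟨z, rfl⟩
    have h3 : z ∈ LinearMap.ker (aeval φ f.reverse ^ 2) := by
      rw [LinearMap.mem_ker, pow_two, Module.End.mul_apply]
      exact ha
    exact h2 h3
  have htop := Submodule.eq_top_of_disjoint _ _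
    (by rw [add_comm, LinearMap.finrank_range_add_finrank_ker]) hdis
  apply hx0
  refine hnd x fun v => ?_
  have hv : v ∈ LinearMap.ker (aeval φ f.reverse) ⊔ LinearMap.range (aeval φ f.reverse) := by
    rw [htop]; trivial
  obtain ⟨a, ha, _, ⟨z, rfl⟩, rfl⟩ := Submodule.mem_sup.1 hv
  rw [map_add, orthogonal_reverse B hB f hfx z, add_zero]
  refine hxo a (h1 ?_)
  rw [LinearMap.mem_ker] at ha ⊢
  rw [pow_two, Module.End.mul_apply, ha, map_zero]

end

end Pool.Agent.MP_f8720a_ag
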