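import Pool.Agent.Lib.MP_f8720a_ag.ST.Rat

/-!
# The step `e = d - 2`: coefficients in a field of characteristic zero
-/

namespace Pool.Agent.MP_f8720a_ag

/-- Coordinates of an element of the span of a rational space with respect to a rational basis
of the field. -/
theorem exists_coords {F N M ι : Type} [Field F] [CharZero F] [AddCommGroup N] [Module ℚ N]
    [AddCommGroup M] [Module F M] (cl : N →+ M) (b : Module.Basis ι ℚ F) (x : M)
    (hx : x ∈ Submodule.span F (Set.range cl)) :
    ∃ y : ι →₀ N, x = y.sum fun i n => b i • cl n := by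
  classical
  have hzero : ∃ y : ι →₀ N, (0 : M) = y.sum fun i n => b i • cl n := ⟨0, by simp⟩
  have hadd : ∀ x x' : M, (∃ y : ι →₀ N, x = y.sum fun i n => b i • cl n) →
      (∃ y : ι →₀ N, x' = y.sum fun i n => b i • cl n) →
      ∃ y : ι →₀ N, x + x' = y.sum fun i n => b i • cl n := by
    rintro x x' ⟨y, hy⟩ ⟨y', hy'⟩
    refine ⟨y + y', ?_⟩
    rw [Finsupp.sum_add_index' (fun i => by simp) (fun i n n' => by rw [map_add, smul_add]),
      ← hy, ← hy']
  have hone : ∀ (f : F) (n : N), ∃ y : ι →₀ N, f • cl n = y.sum fun i n => b i • cl n := by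
    intro f n
    refine ⟨(b.repr f).mapRange (fun q => q • n) (zero_smul _ _), ?_⟩
    rw [Finsupp.sum_mapRange_index (fun i => by simp)]
    conv_lhs => rw [← b.linearCombination_repr f, Finsupp.linearCombination_apply,
      Finsupp.sum, Finset.sum_smul]
    rw [Finsupp.sum]
    refine Finset.sum_congr rfl fun i _ => ?_
    have h1 : cl ((b.repr f) i • n) = (((b.repr f) i : ℚ) : F) • cl n := by
      have := map_ratCast_smul cl ℚ F ((b.repr f) i) n
      simpa using this
    rw [h1, Rat.smul_def, smul_smul, mul_comm]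
  have hmain : ∀ f : F, ∃ y : ι →₀ N, f • x = y.sum fun i n => b i • cl n := by
    induction hx using Submodule.span_induction with
    | mem x h =>
      obtain ⟨n, rfl⟩ := h
      exact fun f => hone f n
    | zero =>
      intro f
      rw [smul_zero]
      exact hzero
    | add x y _ _ hx hy =>
      intro f
      rw [smul_add]
      exact hadd _ _ (hx f) (hy f)
    | smul a x _ hx =>
      intro f
      rw [smul_smul]
      exact hx (f * a)
  have := hmain 1
  rwa [one_smul] at this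

namespace Strata

variable (S : Strata)

/-- Sum over all divisors of all strata, values in a field. -/
theorem sum_overF {F : Type} [AddCommMonoid F] (m : ℕ) (g : ∀ Y : S.K m, S.Over m Y → F) :
    ∑ Y, ∑ p : S.Over m Y, g Y p =
      ∑ Z : S.K (m + 1), ∑ i : Fin (m + 2), g (S.face m i Z) ⟨(i, Z), rfl⟩ := by
  have h1 : ∑ Y, ∑ p : S.Over m Y, g Y p = ∑ x : (Σ Y, S.Over m Y), g x.1 x.2 := by
    rw [Fintype.sum_sigma]
  rw [h1]
  let e : (Fin (m + 2) × S.K (m + 1)) ≃ (Σ Y, S.Over m Y) :=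
    { toFun := fun x => ⟨S.face m x.1 x.2, ⟨x, rfl⟩⟩
      invFun := fun y => y.2.1
      left_inv := fun x => rfl
      right_inv := by
        rintro ⟨Y, ⟨x, hx⟩⟩
        subst hx
        rfl }
  rw [← Equiv.sum_comp e, Fintype.sum_prod_type, Finset.sum_comm]
  rfl

end Strata

namespace Restr

variable {S : Strata} {D : Numbers S} {j : ℕ} {C : Classes D j} {C' : Classes D (j + 1)}
  (R : Restr C C')

theorem gys_add (c c' : S.K (j + 2) → ℚ) (Z : S.K (j + 1)) :
    R.gys (c + c') Z = R.gys c Z + R.gys c' Z := by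
  simp only [gys, Strata.gysin, Pi.add_apply, mul_add, add_smul, Finset.sum_add_distrib]

/-- The polarised key identity. -/
theorem polar (hD : D.IsPolarised) (c c' : S.K (j + 2) → ℚ) :
    ∑ Z, C'.form Z (R.gys c Z) (R.gys c' Z) +
      ∑ P, D.vol (j + 3) P * (S.delta ℚ (j + 2) c P * S.delta ℚ (j + 2) c' P) = 0 := by
  have h0 : ∀ c : S.K (j + 2) → ℚ, ∑ Z, C'.form Z (R.gys c Z) (R.gys c Z) =
      - ∑ P, D.vol (j + 3) P * (S.delta ℚ (j + 2) c P) ^ 2 := by
    intro c
    rw [← D.key hD (j + 1) c]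
    exact Finset.sum_congr rfl fun Z _ => R.gys_gys c Z
  have h1 := h0 (c + c')
  have h2 := h0 c
  have h3 := h0 c'
  have h4 : ∑ Z, C'.form Z (R.gys (c + c') Z) (R.gys (c + c') Z) =
      ∑ Z, C'.form Z (R.gys c Z) (R.gys c Z) + 2 * ∑ Z, C'.form Z (R.gys c Z) (R.gys c' Z) +
        ∑ Z, C'.form Z (R.gys c' Z) (R.gys c' Z) := by
    rw [Finset.mul_sum, ← Finset.sum_add_distrib, ← Finset.sum_add_distrib]
    refine Finset.sum_congr rfl fun Z _ => ?_
    rw [R.gys_add]
    simp only [map_add, LinearMap.add_apply]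
    rw [C'.symm Z (R.gys c' Z) (R.gys c Z)]
    ring
  have h5 : ∑ P, D.vol (j + 3) P * (S.delta ℚ (j + 2) (c + c') P) ^ 2 =
      ∑ P, D.vol (j + 3) P * (S.delta ℚ (j + 2) c P) ^ 2 +
        2 * ∑ P, D.vol (j + 3) P * (S.delta ℚ (j + 2) c P * S.delta ℚ (j + 2) c' P) +
        ∑ P, D.vol (j + 3) P * (S.delta ℚ (j + 2) c' P) ^ 2 := by
    rw [Finset.mul_sum, ← Finset.sum_add_distrib, ← Finset.sum_add_distrib]
    refine Finset.sum_congr rfl fun P _ => ?_
    rw [map_add, Pi.add_apply]
    ring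
  linarith

/-- The form with the Gysin image of a basis vector. -/
theorem form_gys (c : S.K (j + 2) → ℚ) (s : ∀ Z, C'.N Z) :
    ∑ Z, C'.form Z (R.gys c Z) (s Z) =
      ∑ W, c W * ∑ k : Fin (j + 3), (-1 : ℚ) ^ (k : ℕ) *
        C'.form (S.face (j + 1) k W) (C'.div (S.face (j + 1) k W) ⟨(k, W), rfl⟩)
          (s (S.face (j + 1) k W)) := by
  have h1 : ∑ Z, C'.form Z (R.gys c Z) (s Z) =
      ∑ Z, ∑ p : S.Over (j + 1) Z, S.gysin ℚ (j + 1) c Z p * C'.form Z (C'.div Z p) (s Z) := by
    refine Finset.sum_congr rfl fun Z _ => ?_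
    rw [gys, map_sum, LinearMap.sum_apply]
    refine Finset.sum_congr rfl fun p _ => ?_
    rw [map_smul, LinearMap.smul_apply, smul_eq_mul]
  rw [h1, S.sum_over (j + 1) fun Z p => S.gysin ℚ (j + 1) c Z p * C'.form Z (C'.div Z p) (s Z)]
  refine Finset.sum_congr rfl fun W _ => ?_
  rw [Finset.mul_sum]
  refine Finset.sum_congr rfl fun k _ => ?_
  simp only [Strata.gysin]
  ring

/-- The square of the differential of the row vanishes on the curves. -/
theorem out_inn (hD : D.IsPolarised) (c : S.K (j + 2) → ℚ) (W : S.K (j + 2)) :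
    ∑ k : Fin (j + 3), (-1 : ℚ) ^ (k : ℕ) *
        C'.form (S.face (j + 1) k W) (C'.div (S.face (j + 1) k W) ⟨(k, W), rfl⟩)
          (R.gys c (S.face (j + 1) k W)) +
      D.dg (j + 2) W (S.gysin ℚ (j + 2) (S.delta ℚ (j + 2) c) W) = 0 := by
  classical
  have h1 := R.polar hD (Pi.single W 1) c
  rw [R.form_gys (Pi.single W 1) (R.gys c)] at h1
  have h2 : ∑ P, D.vol (j + 3) P *
      (S.delta ℚ (j + 2) (Pi.single W 1) P * S.delta ℚ (j + 2) c P) =
      ∑ W', (Pi.single W 1 : S.K (j + 2) → ℚ) W' *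
        D.dg (j + 2) W' (S.gysin ℚ (j + 2) (S.delta ℚ (j + 2) c) W') := by
    rw [← D.adj (j + 2) (S.delta ℚ (j + 2) c) (Pi.single W 1)]
    refine Finset.sum_congr rfl fun P _ => ?_
    ring
  rw [h2, Finset.sum_eq_single W, Finset.sum_eq_single W] at h1
  · simpa using h1
  · intro W' _ hW'
    rw [Pi.single_eq_of_ne hW', zero_mul]
  · intro h
    exact absurd (Finset.mem_univ _) h
  · intro W' _ hW'
    rw [Pi.single_eq_of_ne hW', zero_mul]
  · intro h
    exact absurd (Finset.mem_univ _) h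

end Restr

end Pool.Agent.MP_f8720a_ag
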