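import Pool.Agent.Lib.MP_f8720a_ag.ST.Coef

/-!
# The step `e = q - 2`
-/

namespace Pool.Agent.MP_f8720a_ag

namespace Coh

section

variable {F : Type} [Field F] {S : Strata} {D : Numbers S} {j : ℕ}
  {C : Classes D j} {C' : Classes D (j + 1)} {R : Restr C C'} (X : Coh F R)

/-- The restriction of rational classes. -/
theorem rho_cl (t : ∀ Y, C.N Y) (Z : S.K (j + 1)) :
    X.rho (fun Y => X.clT Y (t Y)) Z = X.clS Z (R.rho t Z) := by
  rw [rho_apply, Restr.rho, map_sum]
  refine Finset.sum_congr rfl fun i _ => ?_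
  rw [X.res_cl, X.clS_rat]
  push_cast
  rfl

/-- The pairing with the incoming differential. -/
theorem pair_inn (x : X.V) (c : S.K (j + 2) → F) :
    ∑ Z, X.cup Z (x.1 Z) (X.gys c Z) +
      ∑ P, (D.vol (j + 3) P : F) * x.2 P * S.delta F (j + 2) c P =
    ∑ W, c W * X.degOut x W := by
  have h1 : ∑ Z, X.cup Z (x.1 Z) (X.gys c Z) =
      ∑ W, ∑ k : Fin (j + 3), c W * ((-1 : F) ^ (k : ℕ) *
        X.cup (S.face (j + 1) k W)
        (X.clS (S.face (j + 1) k W) (C'.div (S.face (j + 1) k W) ⟨(k, W), rfl⟩))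
        (x.1 (S.face (j + 1) k W))) := by
    have h2 : ∑ Z, X.cup Z (x.1 Z) (X.gys c Z) =
        ∑ Z, ∑ p : S.Over (j + 1) Z, S.gysin F (j + 1) c Z p *
          X.cup Z (X.clS Z (C'.div Z p)) (x.1 Z) := by
      refine Finset.sum_congr rfl fun Z _ => ?_
      rw [gys_apply, map_sum]
      refine Finset.sum_congr rfl fun p _ => ?_
      rw [map_smul, smul_eq_mul, X.cup_symm]
    rw [h2, S.sum_overF (j + 1) fun Z p => S.gysin F (j + 1) c Z p *
          X.cup Z (X.clS Z (C'.div Z p)) (x.1 Z)]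
    refine Finset.sum_congr rfl fun W _ => Finset.sum_congr rfl fun k _ => ?_
    simp only [Strata.gysin]
    ring
  have h3 : ∑ P, (D.vol (j + 3) P : F) * x.2 P * S.delta F (j + 2) c P =
      ∑ W, c W * ∑ q : S.Over (j + 2) W, S.gysin F (j + 2) x.2 W q *
        (D.vol (j + 3) q.1.2 : F) := by
    have h4 : ∑ W, c W * ∑ q : S.Over (j + 2) W, S.gysin F (j + 2) x.2 W q *
        (D.vol (j + 3) q.1.2 : F) =
        ∑ W, ∑ q : S.Over (j + 2) W, c W * (S.gysin F (j + 2) x.2 W q *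
        (D.vol (j + 3) q.1.2 : F)) :=
      Finset.sum_congr rfl fun W _ => Finset.mul_sum _ _ _
    rw [h4, S.sum_overF (j + 2) fun W q => c W * (S.gysin F (j + 2) x.2 W q *
        (D.vol (j + 3) q.1.2 : F))]
    refine Finset.sum_congr rfl fun P _ => ?_
    show (D.vol (j + 3) P : F) * x.2 P *
      (∑ k : Fin (j + 4), (-1 : F) ^ (k : ℕ) * c (S.face (j + 2) k P)) = _
    rw [Finset.mul_sum]
    refine Finset.sum_congr rfl fun i _ => ?_
    simp only [Strata.gysin]
    ring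
  rw [h1, h3, ← Finset.sum_add_distrib]
  refine Finset.sum_congr rfl fun W _ => ?_
  rw [← Finset.mul_sum, ← mul_add, ← degOut_apply]

/-- The classes of divisors are orthogonal to the transcendental classes. -/
theorem cup_clS_M {m : X.HS'} (hm : m ∈ X.M) (Z : S.K (j + 1)) (x : C'.N Z) :
    X.cup Z (X.clS Z x) (m Z) = 0 := (X.cup_symm Z _ _).trans (X.tate.orth m hm Z x)

/-- The Gysin images are orthogonal to the transcendental classes. -/
theorem gys_M (c : S.K (j + 2) → F) {m : X.HS'} (hm : m ∈ X.M) (Z : S.K (j + 1)) :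
    X.cup Z (X.gys c Z) (m Z) = 0 := by
  rw [gys_apply, map_sum, LinearMap.sum_apply]
  refine Finset.sum_eq_zero fun p _ => ?_
  rw [map_smul, LinearMap.smul_apply, X.cup_clS_M hm, smul_zero]

end

variable {F : Type} [Field F] [CharZero F] {S : Strata} {D : Numbers S} {j : ℕ}
  {C : Classes D j} {C' : Classes D (j + 1)} {R : Restr C C'} (X : Coh F R)

/-- The Gysin image of a rational cochain. -/
theorem gys_cl (c : S.K (j + 2) → ℚ) (Z : S.K (j + 1)) :
    X.gys (fun W => (c W : F)) Z = X.clS Z (R.gys c Z) := by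
  rw [gys_apply, Restr.gys, map_sum]
  refine Finset.sum_congr rfl fun p _ => ?_
  rw [X.clS_rat]
  simp only [Strata.gysin]
  push_cast
  rfl

theorem delta_cast (m : ℕ) (c : S.K m → ℚ) (W : S.K (m + 1)) :
    S.delta F m (fun Z => (c Z : F)) W = (S.delta ℚ m c W : F) := by
  show ∑ k : Fin (m + 2), (-1 : F) ^ (k : ℕ) * (c (S.face m k W) : F) =
    ((∑ k : Fin (m + 2), (-1 : ℚ) ^ (k : ℕ) * c (S.face m k W) : ℚ) : F)
  push_cast
  rfl

/-- Rational coordinates of the restriction of a family of classes on the threefolds. -/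
theorem coords {ι : Type} (b : Module.Basis ι ℚ F) (t : ∀ Y, X.HT Y) :
    ∃ (s : Finset ι) (u : ι → ∀ Y, C.N Y) (m : X.HS'), m ∈ X.M ∧
      X.rho t = ∑ i ∈ s, b i • X.rho (fun Y => X.clT Y (u i Y)) + m := by
  classical
  obtain ⟨t', ht', hres⟩ := X.tate.span_class t
  have h1 : ∀ Y, ∃ y : ι →₀ C.N Y, t' Y = y.sum fun i n => b i • X.clT Y n := fun Y =>
    exists_coords (X.clT Y) b (t' Y) (ht' Y)
  choose y hy using h1
  refine ⟨Finset.univ.biUnion fun Y => (y Y).support, fun i Y => y Y i, X.rho t - X.rho t',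
    hres, ?_⟩
  have h2 : t' = ∑ i ∈ Finset.univ.biUnion fun Y => (y Y).support,
      b i • fun Y => X.clT Y (y Y i) := by
    funext Y
    rw [Finset.sum_apply, hy Y, Finsupp.sum]
    refine Finset.sum_subset (Finset.subset_biUnion_of_mem (fun Y => (y Y).support)
      (Finset.mem_univ Y)) fun i _ hi => ?_
    rw [Finsupp.notMem_support_iff.1 hi, map_zero, smul_zero]
  have h3 : X.rho t' = ∑ i ∈ Finset.univ.biUnion fun Y => (y Y).support,
      b i • X.rho fun Y => X.clT Y (y Y i) := by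
    conv_lhs => rw [h2]
    rw [map_sum]
    exact Finset.sum_congr rfl fun i _ => map_smul _ _ _
  rw [← h3, add_sub_cancel]

/-- The pairing of restrictions with the Gysin images of the curves vanishes. -/
theorem gys_rho (t : ∀ Y, X.HT Y) (c : S.K (j + 2) → F) :
    ∑ Z, X.cup Z (X.gys c Z) (X.rho t Z) = 0 := by
  classical
  let b := Module.Basis.ofVectorSpace ℚ F
  obtain ⟨s, u, m, hm, hu⟩ := X.coords b t
  have hc : c = ∑ W, c W • (fun W' => (((Pi.single W 1 : S.K (j + 2) → ℚ) W' : ℚ) : F)) := by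
    funext W'
    rw [Finset.sum_apply, Finset.sum_eq_single W']
    · simp
    · intro W _ hW
      rw [Pi.smul_apply, Pi.single_eq_of_ne (fun e => hW e.symm)]
      simp
    · intro h
      exact absurd (Finset.mem_univ _) h
  have h1 : ∀ (c' : S.K (j + 2) → ℚ) (t' : ∀ Y, C.N Y),
      ∑ Z, X.cup Z (X.gys (fun W => (c' W : F)) Z) (X.rho (fun Y => X.clT Y (t' Y)) Z) = 0 := by
    intro c' t'
    have h2 := R.rho_gys t' c'
    rw [← Rat.cast_zero (α := F), ← h2, Rat.cast_sum]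
    refine Finset.sum_congr rfl fun Z _ => ?_
    rw [X.rho_cl, X.gys_cl, X.cup_cl]
  have h3 : ∀ (c' : S.K (j + 2) → ℚ),
      ∑ Z, X.cup Z (X.gys (fun W => (c' W : F)) Z) (X.rho t Z) = 0 := by
    intro c'
    rw [hu]
    have : ∀ Z, X.cup Z (X.gys (fun W => (c' W : F)) Z)
        ((∑ i ∈ s, b i • X.rho (fun Y => X.clT Y (u i Y)) + m) Z) =
        ∑ i ∈ s, b i * X.cup Z (X.gys (fun W => (c' W : F)) Z)
          (X.rho (fun Y => X.clT Y (u i Y)) Z) := by
      intro Z
      rw [Pi.add_apply, map_add, X.gys_M _ hm, add_zero, Finset.sum_apply, map_sum]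
      refine Finset.sum_congr rfl fun i _ => ?_
      rw [Pi.smul_apply, map_smul, smul_eq_mul]
    rw [Finset.sum_congr rfl fun Z _ => this Z, Finset.sum_comm]
    refine Finset.sum_eq_zero fun i _ => ?_
    rw [← Finset.mul_sum, h1, mul_zero]
  rw [hc, map_sum]
  have : ∀ Z, X.cup Z ((∑ W, X.gys (c W • fun W' =>
      (((Pi.single W 1 : S.K (j + 2) → ℚ) W' : ℚ) : F))) Z) (X.rho t Z) =
      ∑ W, c W * X.cup Z (X.gys (fun W' =>
        (((Pi.single W 1 : S.K (j + 2) → ℚ) W' : ℚ) : F)) Z) (X.rho t Z) := by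
    intro Z
    rw [Finset.sum_apply, map_sum, LinearMap.sum_apply]
    refine Finset.sum_congr rfl fun W _ => ?_
    rw [map_smul, Pi.smul_apply, map_smul, LinearMap.smul_apply, smul_eq_mul]
  rw [Finset.sum_congr rfl fun Z _ => this Z, Finset.sum_comm]
  refine Finset.sum_eq_zero fun W _ => ?_
  rw [← Finset.mul_sum, h3, mul_zero]

/-- The differential to the curves vanishes on the restrictions from the threefolds. -/
theorem degOut_innT (t : ∀ Y, X.HT Y) : X.degOut (X.innT t) = 0 := by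
  classical
  funext W
  rw [degOut_apply, innT_apply]
  have h1 := X.gys_rho t (Pi.single W 1)
  have h2 : ∑ Z, X.cup Z (X.gys (Pi.single W 1) Z) (X.rho t Z) =
      ∑ Z, ∑ p : S.Over (j + 1) Z, S.gysin F (j + 1) (Pi.single W 1) Z p *
        X.cup Z (X.clS Z (C'.div Z p)) (X.rho t Z) := by
    refine Finset.sum_congr rfl fun Z _ => ?_
    rw [gys_apply, map_sum, LinearMap.sum_apply]
    refine Finset.sum_congr rfl fun p _ => ?_
    rw [map_smul, LinearMap.smul_apply, smul_eq_mul]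
  rw [h2, S.sum_overF (j + 1) fun Z p => S.gysin F (j + 1) (Pi.single W 1) Z p *
    X.cup Z (X.clS Z (C'.div Z p)) (X.rho t Z), Finset.sum_eq_single W] at h1
  · rw [Pi.zero_apply]
    have h3 : ∑ q : S.Over (j + 2) W, S.gysin F (j + 2) (0 : S.K (j + 3) → F) W q *
        (D.vol (j + 3) q.1.2 : F) = 0 := by
      refine Finset.sum_eq_zero fun q _ => ?_
      simp [Strata.gysin]
    have h4 : ∀ k : Fin (j + 3), S.gysin F (j + 1) (Pi.single W 1) (S.face (j + 1) k W)
        ⟨(k, W), rfl⟩ = (-1 : F) ^ (k : ℕ) := by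
      intro k
      simp [Strata.gysin]
    simp only [h4] at h1
    exact (add_eq_left.2 h3).trans h1
  · intro W' _ hW'
    refine Finset.sum_eq_zero fun k _ => ?_
    simp [Strata.gysin, Pi.single_eq_of_ne hW']
  · intro h
    exact absurd (Finset.mem_univ _) h

/-- The square of the differential of the row vanishes. -/
theorem degOut_inn (hD : D.IsPolarised) (c : S.K (j + 2) → F) : X.degOut (X.inn c) = 0 := by
  classical
  have h1 : ∀ c' : S.K (j + 2) → ℚ, X.degOut (X.inn fun W => (c' W : F)) = 0 := by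
    intro c'
    funext W
    rw [degOut_apply, inn_apply, Pi.zero_apply]
    have h2 := R.out_inn hD c' W
    rw [← Rat.cast_zero (α := F), ← h2, Rat.cast_add, Rat.cast_sum, Numbers.dg, Rat.cast_sum]
    congr 1
    · refine Finset.sum_congr rfl fun k _ => ?_
      show _ * X.cup _ _ (X.gys (fun W => (c' W : F)) _) = _
      rw [X.gys_cl, X.cup_cl]
      push_cast
      rfl
    · refine Finset.sum_congr rfl fun q _ => ?_
      have h3 : S.gysin F (j + 2) (S.delta F (j + 2) fun W => (c' W : F)) W q =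
          (S.gysin ℚ (j + 2) (S.delta ℚ (j + 2) c') W q : F) := by
        show (-1 : F) ^ (q.1.1 : ℕ) * S.delta F (j + 2) (fun W => (c' W : F)) q.1.2 =
          (((-1 : ℚ) ^ (q.1.1 : ℕ) * S.delta ℚ (j + 2) c' q.1.2 : ℚ) : F)
        rw [delta_cast]
        push_cast
        rfl
      show S.gysin F (j + 2) (S.delta F (j + 2) fun W => (c' W : F)) W q * _ = _
      rw [h3]
      push_cast
      rfl
  have hc : c = ∑ W, c W • (fun W' => (((Pi.single W 1 : S.K (j + 2) → ℚ) W' : ℚ) : F)) := by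
    funext W'
    rw [Finset.sum_apply, Finset.sum_eq_single W']
    · simp
    · intro W _ hW
      rw [Pi.smul_apply, Pi.single_eq_of_ne (fun e => hW e.symm)]
      simp
    · intro h
      exact absurd (Finset.mem_univ _) h
  rw [hc, map_sum, map_sum]
  refine Finset.sum_eq_zero fun W _ => ?_
  rw [map_smul, map_smul, h1, smul_zero]

/-- A restriction that is orthogonal to all restrictions is the Gysin image of a cocycle. -/
theorem radical (hD : D.IsPolarised) (t : ∀ Y, X.HT Y)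
    (h2 : ∀ t' : ∀ Y, X.HT Y, ∑ Z, X.cup Z (X.rho t Z) (X.rho t' Z) = 0) :
    ∃ c : S.K (j + 2) → F, S.delta F (j + 2) c = 0 ∧ X.gys c = X.rho t := by
  classical
  let b := Module.Basis.ofVectorSpace ℚ F
  obtain ⟨s, u, m, hm, hu⟩ := X.coords b t
  have ht0 : ∀ Z, X.rho t Z = ∑ i ∈ s, b i • X.clS Z (R.rho (u i) Z) + m Z := by
    intro Z
    rw [hu, Pi.add_apply, Finset.sum_apply]
    congr 1
    refine Finset.sum_congr rfl fun i _ => ?_
    rw [Pi.smul_apply, X.rho_cl]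
  -- the transcendental part vanishes
  have hm0 : m = 0 := by
    refine X.nondeg m hm fun m' hm' => ?_
    obtain ⟨t', ht'⟩ := X.tate.range m' hm'
    have h3 : ∑ Z, X.cup Z (X.rho t Z) (m' Z) = 0 := by
      rw [← ht']
      exact h2 t'
    have h4 : ∀ Z, X.cup Z (X.rho t Z) (m' Z) = X.cup Z (m Z) (m' Z) := by
      intro Z
      rw [ht0 Z, map_add, LinearMap.add_apply, map_sum, LinearMap.sum_apply,
        Finset.sum_eq_zero, zero_add]
      intro i _
      rw [map_smul, LinearMap.smul_apply, X.cup_clS_M hm', smul_zero]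
    rw [Finset.sum_congr rfl fun Z _ => h4 Z] at h3
    exact h3
  have ht : ∀ Z, X.rho t Z = ∑ i ∈ s, b i • X.clS Z (R.rho (u i) Z) := by
    intro Z
    rw [ht0 Z, hm0, Pi.zero_apply, add_zero]
  -- the coordinates satisfy the rational condition
  have h4 : ∀ i ∈ s, ∀ t' : ∀ Y, C.N Y,
      ∑ Z, C'.form Z (R.rho (u i) Z) (R.rho t' Z) = 0 := by
    intro i hi t'
    have h5 := h2 fun Y => X.clT Y (t' Y)
    have h6 : ∑ Z, X.cup Z (X.rho t Z) (X.rho (fun Y => X.clT Y (t' Y)) Z) =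
        ∑ i ∈ s, (∑ Z, C'.form Z (R.rho (u i) Z) (R.rho t' Z)) • b i := by
      have h7 : ∀ Z, X.cup Z (X.rho t Z) (X.rho (fun Y => X.clT Y (t' Y)) Z) =
          ∑ i ∈ s, (C'.form Z (R.rho (u i) Z) (R.rho t' Z)) • b i := by
        intro Z
        rw [ht Z, X.rho_cl, map_sum, LinearMap.sum_apply]
        refine Finset.sum_congr rfl fun i _ => ?_
        rw [map_smul, LinearMap.smul_apply, X.cup_cl, smul_eq_mul, Rat.smul_def, mul_comm]
      rw [Finset.sum_congr rfl fun Z _ => h7 Z, Finset.sum_comm]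
      refine Finset.sum_congr rfl fun i _ => ?_
      rw [Finset.sum_smul]
    rw [h6] at h5
    exact linearIndependent_iff'.1 b.linearIndependent s _ h5 i hi
  have h8 : ∀ i, ∃ c : S.K (j + 2) → ℚ, i ∈ s → S.delta ℚ (j + 2) c = 0 ∧
      ∀ Z, R.rho (u i) Z = R.gys c Z := by
    intro i
    by_cases hi : i ∈ s
    · obtain ⟨c, hc⟩ := R.main hD (u i) (h4 i hi)
      exact ⟨c, fun _ => hc⟩
    · exact ⟨0, fun h => absurd h hi⟩
  choose c' hc' using h8
  refine ⟨∑ i ∈ s, b i • fun W => (c' i W : F), ?_, ?_⟩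
  · rw [map_sum]
    refine Finset.sum_eq_zero fun i hi => ?_
    rw [map_smul]
    have h9 : S.delta F (j + 2) (fun W => (c' i W : F)) = 0 := by
      funext P
      rw [delta_cast, (hc' i hi).1]
      simp
    rw [h9, smul_zero]
  · rw [map_sum]
    funext Z
    rw [Finset.sum_apply, ht Z]
    refine Finset.sum_congr rfl fun i hi => ?_
    rw [map_smul, Pi.smul_apply, X.gys_cl, (hc' i hi).2 Z]

end Coh

/-- A vector has a projection to a subspace, for a form which may be degenerate, if the vector is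
orthogonal to the (right) radical of the subspace. -/
theorem exists_proj_of_radical' {F V : Type} [Field F] [AddCommGroup V] [Module F V]
    [FiniteDimensional F V] (f : V →ₗ[F] V →ₗ[F] F) (W : Submodule F V) (s : V)
    (hs : ∀ w ∈ W, (∀ w' ∈ W, f w' w = 0) → f s w = 0) :
    ∃ w ∈ W, ∀ w' ∈ W, f w w' = f s w' := by
  let Φ : W →ₗ[F] Module.Dual F W := (f.comp W.subtype).compl₂ W.subtype
  let l : Module.Dual F W := (f s).comp W.subtype
  by_cases hl : l ∈ LinearMap.range Φ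
  · obtain ⟨w, hw⟩ := hl
    exact ⟨w, w.2, fun w' hw' => LinearMap.congr_fun hw ⟨w', hw'⟩⟩
  · exfalso
    obtain ⟨g, hg, hle⟩ := Submodule.exists_le_ker_of_notMem hl
    obtain ⟨w, rfl⟩ := (Module.evalEquiv F W).surjective g
    apply hg
    have h1 : ∀ w' ∈ W, f w' w = 0 := by
      intro w' hw'
      have h2 := hle ⟨⟨w', hw'⟩, rfl⟩
      rw [LinearMap.mem_ker, Module.evalEquiv_apply, Module.Dual.eval_apply] at h2
      exact h2
    have h4 := hs w w.2 h1
    rw [Module.evalEquiv_apply, Module.Dual.eval_apply]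
    exact h4

/-- The case of a symmetric form. -/
theorem exists_proj_of_radical {F V : Type} [Field F] [AddCommGroup V] [Module F V]
    [FiniteDimensional F V] (f : V →ₗ[F] V →ₗ[F] F) (hf : ∀ x y, f x y = f y x)
    (W : Submodule F V) (s : V) (hs : ∀ w ∈ W, (∀ w' ∈ W, f w w' = 0) → f s w = 0) :
    ∃ w ∈ W, ∀ w' ∈ W, f w w' = f s w' :=
  exists_proj_of_radical' f W s fun w hw h => hs w hw fun w' hw' => by rw [hf, h w' hw']

namespace Ends

variable {F : Type} [Field F] [CharZero F] {S : Strata} {D : Numbers S} {j : ℕ}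
  {C : Classes D j} {C' : Classes D (j + 1)} {R : Restr C C'} {X : Coh F R}
  (Y : Ends X.toCohData)

omit [CharZero F] in
theorem inn_mem_topIm (c : S.K (j + 2) → F) : X.inn c ∈ X.topIm := by
  rw [X.topIm_eq]
  exact ⟨c, rfl⟩

omit [CharZero F] in
theorem innT_mem_botIm (t : ∀ Y, X.HT Y) : X.innT t ∈ X.botIm := by
  rw [X.botIm_eq]
  exact Submodule.mem_sup_left ⟨t, rfl⟩

omit [CharZero F] in
theorem innT_mem (t : ∀ Y, X.HT Y) : X.innT t ∈ Y.kerC := Y.botIm_le (innT_mem_botIm t)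

omit [CharZero F] in
theorem inn_mem (c : S.K (j + 2) → F) : X.inn c ∈ Y.kerC :=
  Y.botIm_le (Submodule.mem_sup_right (inn_mem_topIm c))

omit [CharZero F] in
theorem topKer_le : Y.topKer ≤ Y.botKer := by
  rintro x ⟨⟨_, h2⟩, h3⟩
  exact ⟨⟨trivial, h2⟩, h3⟩

theorem topIm_le_topKer : X.topIm ≤ Y.topKer := by
  rw [X.topIm_eq]
  rintro _ ⟨c, rfl⟩
  exact ⟨⟨Y.gys_mem c, Numbers.delta_delta_coef (j + 2) c⟩, Y.inn_mem c⟩

theorem botIm_le_botKer : X.botIm ≤ Y.botKer := by
  rw [X.botIm_eq]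
  refine sup_le ?_ ?_
  · rintro _ ⟨t, rfl⟩
    refine ⟨⟨trivial, ?_⟩, Y.innT_mem t⟩
    show S.delta F (j + 3) (0 : S.K (j + 3) → F) = 0
    exact map_zero (S.delta F (j + 3))
  · rw [← X.topIm_eq]
    exact Y.topIm_le_topKer.trans Y.topKer_le

/-- Injectivity. -/
theorem inter_le (hD : D.IsPolarised) (x : X.V) (hx : x ∈ Y.topKer) (hx' : x ∈ X.botIm) :
    x ∈ X.topIm := by
  rw [X.botIm_eq] at hx'
  obtain ⟨_, ⟨t, rfl⟩, _, ⟨c, rfl⟩, rfl⟩ := Submodule.mem_sup.1 hx'
  have h1 : X.innT t ∈ Y.topKer := by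
    have := Submodule.sub_mem _ hx (Y.topIm_le_topKer (inn_mem_topIm c))
    rwa [add_sub_cancel_right] at this
  have h2 : ∀ t' : ∀ Y, X.HT Y, ∑ Z, X.cup Z (X.rho t Z) (X.rho t' Z) = 0 :=
    Y.pair_eq_zero _ h1.1.1
  obtain ⟨c', hc', hr⟩ := X.radical hD t h2
  rw [X.topIm_eq]
  refine Submodule.add_mem _ ⟨c', ?_⟩ ⟨c, rfl⟩
  rw [Coh.inn_apply, Coh.innT_apply, hr, hc']

/-- Surjectivity. -/
theorem le_sup (hD : D.IsPolarised) (hL : Y.LefInj) (z : X.V) (hz : z ∈ Y.botKer) :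
    ∃ t, z - X.innT t ∈ Y.topKer := by
  classical
  let f : (∀ Z, X.HS Z) →ₗ[F] (∀ Z, X.HS Z) →ₗ[F] F :=
    ∑ Z, ((X.cup Z).comp (LinearMap.proj Z)).compl₂ (LinearMap.proj Z)
  have hf : ∀ x y, f x y = ∑ Z, X.cup Z (x Z) (y Z) := by
    intro x y
    simp only [f, LinearMap.sum_apply, LinearMap.compl₂_apply, LinearMap.comp_apply,
      LinearMap.proj_apply]
  have hsymm : ∀ x y, f x y = f y x := by
    intro x y
    rw [hf, hf]
    exact Finset.sum_congr rfl fun Z _ => X.cup_symm Z _ _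
  obtain ⟨⟨_, hz2⟩, hz1⟩ := hz
  have hdeg : X.degOut z = 0 := by
    funext W
    exact (X.degAt_eq _ _ W).symm.trans (Y.degAt_eq_zero z.1 z.2 hz1 W)
  obtain ⟨w, ⟨t, rfl⟩, hw⟩ := exists_proj_of_radical f hsymm (LinearMap.range X.rho) z.1 (by
    rintro _ ⟨t, rfl⟩ ht
    obtain ⟨c, hc, hr⟩ := X.radical hD t fun t' => by
      rw [← hf]
      exact ht _ ⟨t', rfl⟩
    have h1 := X.pair_inn z c
    rw [hdeg, hc] at h1
    rw [hf, ← hr]
    simpa using h1)
  have hzt : z - X.innT t ∈ Y.botKer :=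
    Submodule.sub_mem _ ⟨⟨trivial, hz2⟩, hz1⟩ (Y.botIm_le_botKer (innT_mem_botIm t))
  refine ⟨t, ⟨?_, ?_⟩, Submodule.sub_mem _ hz1 (Y.innT_mem t)⟩
  · refine hL _ hzt fun t' => ?_
    have h2 := hw _ ⟨t', rfl⟩
    rw [hf, hf] at h2
    have h3 : ∑ Z, X.cup Z ((z - X.innT t).1 Z) (X.rho t' Z) =
        ∑ Z, X.cup Z (z.1 Z) (X.rho t' Z) - ∑ Z, X.cup Z (X.rho t Z) (X.rho t' Z) := by
      rw [← Finset.sum_sub_distrib]
      refine Finset.sum_congr rfl fun Z _ => ?_
      rw [Prod.fst_sub, Pi.sub_apply, map_sub, LinearMap.sub_apply]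
      rfl
    show ∑ Z, X.cup Z ((z - X.innT t).1 Z) (X.rho t' Z) = 0
    rw [h3, h2, sub_self]
  · have h4 : S.delta F (j + 3) z.2 = 0 := hz2
    show S.delta F (j + 3) (z.2 - (0 : S.K (j + 3) → F)) = 0
    rw [sub_zero, h4]

/-- **The step `e = q - 2`**: the identity induces an injection `E_2^{-e,q+e} → E_2^{e,q-e}`. -/
theorem inj (hD : D.IsPolarised) : Inj2 Y.topKer X.topIm Y.botKer X.botIm :=
  ⟨⟨Y.topIm_le_topKer, Y.botIm_le_botKer, Y.topKer_le, le_sup_right⟩, Y.inter_le hD⟩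

/-- **The step `e = q - 2`**: the identity induces a bijection `E_2^{-e,q+e} → E_2^{e,q-e}`. -/
theorem bij (hD : D.IsPolarised) (hL : Y.LefInj) :
    Bij2 Y.topKer X.topIm Y.botKer X.botIm := by
  refine ⟨Y.inj hD, fun z hz => ?_⟩
  obtain ⟨t, ht⟩ := Y.le_sup hD hL z hz
  refine ⟨_, ht, ?_⟩
  rw [sub_sub_cancel]
  exact innT_mem_botIm t

/-- The condition `LefInj` is necessary. -/
theorem bij_iff (hD : D.IsPolarised) :
    Y.LefInj ↔ Bij2 Y.topKer X.topIm Y.botKer X.botIm := by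
  refine ⟨Y.bij hD, ?_⟩
  rintro ⟨-, h⟩ z hz hz'
  obtain ⟨a, ha, hza⟩ := h z hz
  rw [X.botIm_eq] at hza
  obtain ⟨_, ⟨t, rfl⟩, _, ⟨c, rfl⟩, htc⟩ := Submodule.mem_sup.1 hza
  have h1 : z.1 = a.1 + X.gys c + X.rho t := by
    have h2 : X.rho t + X.gys c = z.1 - a.1 := congrArg Prod.fst htc
    rw [← sub_add_cancel z.1 a.1, ← h2]
    abel
  have h3 : a.1 + X.gys c ∈ Y.kerT := Y.kerT.add_mem ha.1.1 (Y.gys_mem c)
  obtain ⟨c', -, hr⟩ := X.radical hD t fun t' => by
    have h4 : ∑ Z, X.cup Z (z.1 Z) (X.rho t' Z) = 0 := hz' t'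
    have h5 : ∑ Z, X.cup Z ((a.1 + X.gys c) Z) (X.rho t' Z) = 0 := Y.pair_eq_zero _ h3 t'
    have h6 : ∑ Z, X.cup Z (z.1 Z) (X.rho t' Z) =
        ∑ Z, X.cup Z ((a.1 + X.gys c) Z) (X.rho t' Z) +
          ∑ Z, X.cup Z (X.rho t Z) (X.rho t' Z) := by
      rw [← Finset.sum_add_distrib]
      refine Finset.sum_congr rfl fun Z _ => ?_
      rw [h1, Pi.add_apply, map_add, LinearMap.add_apply]
    rw [h6, h5, zero_add] at h4
    exact h4
  have h7 : X.rho t ∈ Y.kerT := by
    rw [← hr]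
    exact Y.gys_mem c'
  rw [h1]
  exact Y.kerT.add_mem h3 h7

/-- The case `q = d`: `K (j + 2)` are curves, their second cohomology is given by the degree,
and the fourth cohomology of the threefolds `K j` is the dual of the second. -/
noncomputable def middle (hD : D.IsPolarised) (X : Coh F R) : Ends X.toCohData where
  kerT := LinearMap.ker (∑ Z, (((X.cup Z).comp (LinearMap.proj Z)).compl₂
    ((LinearMap.proj Z).comp X.rho)) : X.HS' →ₗ[F] Module.Dual F X.HT')
  kerC := LinearMap.ker X.degOut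
  gys_mem := by
    intro c
    rw [LinearMap.mem_ker]
    refine LinearMap.ext fun t => ?_
    simp only [LinearMap.sum_apply, LinearMap.compl₂_apply, LinearMap.comp_apply,
      LinearMap.proj_apply, LinearMap.zero_apply]
    exact X.gys_rho t c
  pair_eq_zero := by
    intro s h t
    rw [LinearMap.mem_ker] at h
    have h1 := LinearMap.congr_fun h t
    simp only [LinearMap.sum_apply, LinearMap.compl₂_apply, LinearMap.comp_apply,
      LinearMap.proj_apply, LinearMap.zero_apply] at h1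
    exact h1
  degAt_eq_zero := by
    intro s p h W
    rw [LinearMap.mem_ker] at h
    rw [X.degAt_eq, h, Pi.zero_apply]
  botIm_le := by
    rw [X.botIm_eq]
    refine sup_le ?_ ?_
    · rintro _ ⟨t, rfl⟩
      exact X.degOut_innT t
    · rintro _ ⟨c, rfl⟩
      exact X.degOut_inn hD c

theorem middle_lefInj (hD : D.IsPolarised) (X : Coh F R) (s : X.HS')
    (h : ∀ t, X.pair s t = 0) : s ∈ (middle hD X).kerT := by
  refine LinearMap.mem_ker.2 (LinearMap.ext fun t => ?_)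
  simp only [LinearMap.sum_apply, LinearMap.compl₂_apply, LinearMap.comp_apply,
    LinearMap.proj_apply, LinearMap.zero_apply]
  exact h t

end Ends

section Lin

variable {F H : Type} [Field F] [AddCommGroup H] [Module F H] {N : Module.End F H}

theorem Induces2.half {P : ℤ → Submodule F H} (hP : ∀ k, (P k).map N ≤ P (k - 2)) {q : ℤ}
    {e : ℕ} {V : Type} [AddCommGroup V] [Module F V] {A B A' B' : Submodule F V}
    (w : Induces2 N P q e A B A' B') (hf : Inj2 A B A' B') :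
    ∀ x ∈ P (q + e), (N ^ e) x ∈ P (q - e - 1) → x ∈ P (q + e - 1) := by
  obtain ⟨⟨hBA, hBA', hAA, hBB⟩, hinj⟩ := hf
  have hmem : ∀ x ∈ P (q + e), (N ^ e) x ∈ P (q - e) := by
    intro x hx
    have := pow_mem N P hP e _ x hx
    rwa [show q + (e : ℤ) - 2 * e = q - e by ring] at this
  intro x hx hNx
  obtain ⟨a, ha⟩ := Submodule.Quotient.mk_surjective _
    (w.grTop (Submodule.Quotient.mk ⟨x, hx⟩))
  have h1 := w.pow ⟨x, hx⟩ ⟨_, hmem x hx⟩ a ⟨a, hAA a.2⟩ rfl ha.symm rfl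
  have h2 : (Submodule.Quotient.mk ⟨(N ^ e) x, hmem x hx⟩ : Gr P (q - e)) = 0 :=
    (Submodule.Quotient.mk_eq_zero _).2 hNx
  rw [h2, map_zero] at h1
  have h3 := (smul_eq_zero.1 h1.symm).resolve_left w.sgn_ne
  have h3' := (Submodule.Quotient.mk_eq_zero _).1 h3
  have h4 : (a : V) ∈ B := hinj _ a.2 h3'
  have h5 : w.grTop (Submodule.Quotient.mk ⟨x, hx⟩) = 0 := by
    rw [← ha]
    exact (Submodule.Quotient.mk_eq_zero _).2 h4
  have h6 := (map_eq_zero_iff _ w.grTop.injective).1 h5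
  have h7 := (Submodule.Quotient.mk_eq_zero _).1 h6
  exact h7

theorem Induces2.stepIso {P : ℤ → Submodule F H} (hP : ∀ k, (P k).map N ≤ P (k - 2)) {q : ℤ}
    {e : ℕ} {V : Type} [AddCommGroup V] [Module F V] {A B A' B' : Submodule F V}
    (w : Induces2 N P q e A B A' B') (hf : Bij2 A B A' B') : StepIso N P q e := by
  obtain ⟨⟨⟨hBA, hBA', hAA, hBB⟩, hinj⟩, hsurj⟩ := hf
  have hmem : ∀ x ∈ P (q + e), (N ^ e) x ∈ P (q - e) := by
    intro x hx
    have := pow_mem N P hP e _ x hx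
    rwa [show q + (e : ℤ) - 2 * e = q - e by ring] at this
  refine ⟨w.half hP ⟨⟨hBA, hBA', hAA, hBB⟩, hinj⟩, ?_⟩
  intro y hy
  obtain ⟨⟨z, hz⟩, hzy⟩ := Submodule.Quotient.mk_surjective _
    (w.sgn⁻¹ • w.grBot (Submodule.Quotient.mk ⟨y, hy⟩))
  obtain ⟨a, ha, hza⟩ := hsurj z hz
  obtain ⟨g, hg⟩ := w.grTop.surjective (Submodule.Quotient.mk ⟨a, ha⟩)
  obtain ⟨⟨x, hx⟩, rfl⟩ := Submodule.Quotient.mk_surjective _ g
  have h1 := w.pow ⟨x, hx⟩ ⟨_, hmem x hx⟩ ⟨a, ha⟩ ⟨a, hAA ha⟩ rfl hg rfl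
  have h0 : (Submodule.Quotient.mk ⟨a, hAA ha⟩ : A' ⧸ B'.comap A'.subtype) =
      Submodule.Quotient.mk ⟨z, hz⟩ := by
    rw [eq_comm, Submodule.Quotient.eq]
    exact hza
  rw [h0, hzy, smul_smul, mul_inv_cancel₀ w.sgn_ne, one_smul] at h1
  have h2 := w.grBot.injective h1
  have h3 := (Submodule.Quotient.eq _).1 h2.symm
  exact ⟨x, hx, h3⟩

end Lin

end Pool.Agent.MP_f8720a_ag
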