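import Pool.Agent.Lib.MP_f8720a_ag.OuterLem
import Pool.Agent.Lib.MP_f8720a_ag.Curve
import Pool.Agent.Lib.MP_f8720a_ag.ST.Main

/-!
# The data of the steps `e = q` and `e = q - 1`
-/

namespace Pool.Agent.MP_f8720a_ag

open LinearMap in
/-- The step `e = q - 1` (after helper57): the condition on the Gysin image is needed only for the
classes in the kernel of `r`, orthogonal to the image of `δ`. -/
theorem RosatiData.bij_of {F E U V W T : Type} [Field F] [Ring E] [Algebra ℚ E] [StarRing E]
    [AddCommGroup U] [Module F U] [AddCommGroup V] [Module F V] [AddCommGroup W] [Module F W]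
    [AddCommGroup T] [Module F T] (C : RosatiData F E U V W T)
    (h : ∀ v, C.r v = 0 → (∀ u, C.BV v (C.δ u) = 0) → C.G v = 0) :
    Bij (ker C.G ⊓ ker C.r) (ker C.r) (range C.δ) := by
  let C' : RosatiData F E U V W (Module.Dual F U) :=
    { finE := C.finE
      τ := C.τ
      pos := C.pos
      finV := C.finV
      act := C.act
      BU := C.BU
      BV := C.BV
      altV := C.altV
      nondegU := C.nondegU
      nondegV := C.nondegV
      rosati := C.rosati
      δ := C.δ
      d := C.d
      act_d := C.act_d
      r := C.r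
      r_δ := C.r_δ
      cup := LinearMap.id
      G := (Module.Dual.transpose (R := F) C.δ).comp C.BV
      transpose := fun _ _ => rfl }
  have h1 : C'.LefInj := fun v hv => LinearMap.ext fun u => hv u
  have h2 : ker C'.G ⊓ ker C'.r = ker C.G ⊓ ker C.r := by
    ext v
    rw [Submodule.mem_inf, Submodule.mem_inf, mem_ker, mem_ker, mem_ker]
    constructor
    · rintro ⟨h3, h4⟩
      exact ⟨h v h4 fun u => LinearMap.congr_fun h3 u, h4⟩
    · rintro ⟨h3, h4⟩
      refine ⟨LinearMap.ext fun u => ?_, h4⟩
      have h5 := C.transpose v u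
      rw [h3, map_zero] at h5
      exact h5.symm
  have h3 := C'.bij_curve h1
  rw [h2] at h3
  exact h3

variable {F H : Type} [Field F] [AddCommGroup H] [Module F H] (N : Module.End F H)
  (P : ℤ → Submodule F H)

/-- `N ^ e` induces an injective map `gr_(q+e) → gr_(q-e)`. -/
def StepInj (q : ℤ) (e : ℕ) : Prop :=
  ∀ x ∈ P (q + e), (N ^ e) x ∈ P (q - e - 1) → x ∈ P (q + e - 1)

/-- The data of the steps `e = q` and `e = q - 1`, `q = m + 1`: the graded pieces `gr_(2q)` and
`gr_0` are given by the strata datum, `gr_(2q-1)` and `gr_1` by Rosati data, and `N ^ q`,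
`N ^ (q - 1)` are induced by the identity. `prim`: the Gysin image of `v` in the kernel of `r` is
zero if it is orthogonal to `U = ⊕ H¹`; this is Poincare duality if `q = d`. -/
structure OuterData (q : ℕ) {S : Strata} (D : Numbers S) (m : ℕ) where
  E : Type
  U : Type
  V : Type
  W : Type
  T : Type
  [ringE : Ring E]
  [algE : Algebra ℚ E]
  [starE : StarRing E]
  [grpU : AddCommGroup U]
  [modU : Module F U]
  [grpV : AddCommGroup V]
  [modV : Module F V]
  [grpW : AddCommGroup W]
  [modW : Module F W]
  [grpT : AddCommGroup T]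
  [modT : Module F T]
  rosati : RosatiData F E U V W T
  prim : ∀ v, rosati.r v = 0 → (∀ u, rosati.BV v (rosati.δ u) = 0) → rosati.G v = 0
  stepTop : Induces N P q q (D.harm F m) (S.cocyc F m) (S.cobd F m)
  stepNext : Induces N P q m (LinearMap.ker rosati.G ⊓ LinearMap.ker rosati.r)
    (LinearMap.ker rosati.r) (LinearMap.range rosati.δ)

attribute [instance] OuterData.ringE OuterData.algE OuterData.starE OuterData.grpU
  OuterData.modU OuterData.grpV OuterData.modV OuterData.grpW OuterData.modW OuterData.grpT
  OuterData.modT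

variable {N P}

theorem OuterData.all [CharZero F] {q : ℕ} (hP : IsWeight N q P) {S : Strata} {D : Numbers S}
    (hD : D.IsPolarised) {m : ℕ} (hm : q = m + 1) (w : OuterData N P q D m) :
    ∀ e : ℕ, m ≤ e → StepIso N P q e := by
  intro e he
  rcases Nat.lt_or_ge q e with h | h
  · exact hP.stepIso h
  · have h3 : e = m ∨ e = q := by omega
    rcases h3 with rfl | rfl
    · exact w.stepNext.stepIso N hP.step (w.rosati.bij_of w.prim)
    · exact w.stepTop.stepIso N hP.step (D.bij_harm hD m)

end Pool.Agent.MP_f8720a_ag
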