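import Pool.Agent.Lib.MP_f8720a_ag.Steps
import Pool.Agent.Lib.MP_f8720a_ag.ST.Bal

/-!
# The step `e = q - 2` of the monodromy-weight conjecture: definitions

`q = j + 3`, `e = q - 2 = j + 1`. Of a projective SNCL scheme of relative dimension `d ≥ q` the
strata of `K j` have dimension `n + 1`, those of `K (j + 1)` dimension `n = d - q + 2`, those of
`K (j + 2)` dimension `n - 1`, and so on; `A` is an ample class. For `q = d`, `K (j + 1)` are the
surfaces, `K (j + 2)` the curves, `K (j + 3)` the points.
-/

namespace Pool.Agent.MP_f8720a_ag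

/-- The divisor classes modulo numerical equivalence, with rational coefficients, on the strata
`Z` of `K j`: `num Z x y` is the number `A ^ (dim Z - 2) . x . y`, `ample Z` the class of `A`,
`div Z p` the class of the stratum `p` of codimension one in `Z`; with the Hodge index
inequality. -/
structure Classes {S : Strata} (D : Numbers S) (j : ℕ) where
  N : S.K j → Type
  [grp : ∀ Z, AddCommGroup (N Z)]
  [mod : ∀ Z, Module ℚ (N Z)]
  num : ∀ Z, N Z → N Z → ℚ
  ample : ∀ Z, N Z
  div : ∀ Z, S.Over j Z → N Z
  num_add : ∀ Z x x' y, num Z (x + x') y = num Z x y + num Z x' y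
  num_comm : ∀ Z x y, num Z x y = num Z y x
  num_nondeg : ∀ Z x, (∀ y, num Z x y = 0) → x = 0
  num_ample_ample : ∀ Z, num Z (ample Z) (ample Z) = D.vol j Z
  num_ample_div : ∀ Z p, num Z (ample Z) (div Z p) = D.vol (j + 1) p.1.2
  num_div_div : ∀ Z p p', num Z (div Z p) (div Z p') = D.inter j Z p p'
  num_index : ∀ Z x, D.vol j Z * num Z x x ≤ num Z (ample Z) x ^ 2

attribute [instance] Classes.grp Classes.mod

/-- The restriction `restr i Z` of divisor classes from `Y = face i Z` to its divisor `Z`;
`num_restr` is the projection formula, and `deg W Y t` the degree of the restriction of the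
class `t` on `Y` to the stratum `W`, of codimension two in `Y`. -/
structure Restr {S : Strata} {D : Numbers S} {j : ℕ} (C : Classes D j)
    (C' : Classes D (j + 1)) where
  restr : ∀ (i : Fin (j + 2)) (Z : S.K (j + 1)), C.N (S.face j i Z) → C'.N Z
  deg : S.K (j + 2) → ∀ Y : S.K j, C.N Y → ℚ
  restr_add : ∀ i Z t t', restr i Z (t + t') = restr i Z t + restr i Z t'
  restr_ample : ∀ i Z, restr i Z (C.ample (S.face j i Z)) = C'.ample Z
  num_restr : ∀ i Z t, C.num (S.face j i Z) (C.div (S.face j i Z) ⟨(i, Z), rfl⟩) t =
    C'.num Z (C'.ample Z) (restr i Z t)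
  restr_deg : ∀ (k : Fin (j + 3)) (W : S.K (j + 2)) (i : Fin (j + 2))
    (t : C.N (S.face j i (S.face (j + 1) k W))),
    C'.num (S.face (j + 1) k W) (C'.div (S.face (j + 1) k W) ⟨(k, W), rfl⟩)
      (restr i (S.face (j + 1) k W) t) = deg W (S.face j i (S.face (j + 1) k W)) t

/-- `V` is a sum of cohomology groups, with coefficients in `F` (`ℚ_l`), of smooth projective
varieties over a finite field, `B` a nondegenerate form, `Φ` the Frobenius, divided by a number so
that it is an isometry, and `M` is `Φ`-stable. Every irreducible factor `f` of the characteristic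
polynomial of `Φ` on `M` has multiplicity one on `V`, and the reciprocal factor occurs in `M` as
well (`Balanced`). This last condition is automatic if all `f` are reciprocal to themselves (for `l`
in a set of positive density, as the eigenvalues are Weil numbers), and if the characteristic
polynomial of `Φ` on `M` is rational. -/
def FrobPart {F V : Type} [Field F] [AddCommGroup V] [Module F V] (B : V → V → F)
    (M : Submodule F V) : Prop :=
  ∃ Φ : Module.End F V, (∀ x y, B (Φ x) (Φ y) = B x y) ∧ (∀ x, (∀ y, B x y = 0) → x = 0) ∧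
    (∀ m ∈ M, Φ m ∈ M) ∧ Balanced Φ M

/-- The second cohomology, with coefficients in `F` (of characteristic zero), of the strata `Y`
of `K j` (`HT Y`) and `Z` of `K (j + 1)` (`HS Z`), the numbers `num Z x y = A ^ (dim Z - 2) . x . y`,
the cycle classes and the restrictions. -/
structure CohData (F : Type) [Field F] {S : Strata} {D : Numbers S} {j : ℕ} (C : Classes D j)
    (C' : Classes D (j + 1)) where
  HT : S.K j → Type
  HS : S.K (j + 1) → Type
  [grpT : ∀ Y, AddCommGroup (HT Y)]
  [modT : ∀ Y, Module F (HT Y)]
  [grpS : ∀ Z, AddCommGroup (HS Z)]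
  [modS : ∀ Z, Module F (HS Z)]
  [finS : ∀ Z, FiniteDimensional F (HS Z)]
  num : ∀ Z, HS Z → HS Z → F
  classT : ∀ Y, C.N Y → HT Y
  classS : ∀ Z, C'.N Z → HS Z
  restr : ∀ (i : Fin (j + 2)) (Z : S.K (j + 1)), HT (S.face j i Z) → HS Z

attribute [instance] CohData.grpT CohData.modT CohData.grpS CohData.modS CohData.finS

namespace CohData

variable {F : Type} [Field F] {S : Strata} {D : Numbers S} {j : ℕ} {C : Classes D j}
  {C' : Classes D (j + 1)} (X : CohData F C C')

/-- The second cohomology of the strata of `K j`. -/
abbrev HT' : Type := ∀ Y, X.HT Y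

/-- The second cohomology of the strata of `K (j + 1)`. -/
abbrev HS' : Type := ∀ Z, X.HS Z

/-- The term of `E_1`: the second cohomology of the strata of `K (j + 1)` and the cohomology of
degree zero of those of `K (j + 3)`. -/
abbrev V : Type := X.HS' × (S.K (j + 3) → F)

instance grpT' : AddCommGroup X.HT' := Pi.addCommGroup

instance modT' : Module F X.HT' := Pi.module _ _ _

instance grpS' : AddCommGroup X.HS' := Pi.addCommGroup

instance modS' : Module F X.HS' := Pi.module _ _ _

instance grpV : AddCommGroup X.V := Prod.instAddCommGroup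

instance modV : Module F X.V := Prod.instModule

/-- The restriction from `K j` to `K (j + 1)` in degree two,
`(rho t)_Z = sum_i (-1)^i t(face i Z)|Z`. -/
def rho (t : X.HT') : X.HS' := fun Z =>
  ∑ i : Fin (j + 2), (-1 : F) ^ (i : ℕ) • X.restr i Z (t (S.face j i Z))

/-- The laws of the cohomology. -/
structure Laws (R : Restr C C') : Prop where
  num_add : ∀ Z x x' y, X.num Z (x + x') y = X.num Z x y + X.num Z x' y
  num_smul : ∀ Z (a : F) x y, X.num Z (a • x) y = a * X.num Z x y
  num_comm : ∀ Z x y, X.num Z x y = X.num Z y x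
  classT_add : ∀ Y t t', X.classT Y (t + t') = X.classT Y t + X.classT Y t'
  classS_add : ∀ Z t t', X.classS Z (t + t') = X.classS Z t + X.classS Z t'
  restr_add : ∀ i Z t t', X.restr i Z (t + t') = X.restr i Z t + X.restr i Z t'
  restr_smul : ∀ i Z (a : F) t, X.restr i Z (a • t) = a • X.restr i Z t
  num_class : ∀ Z x y, X.num Z (X.classS Z x) (X.classS Z y) = (C'.num Z x y : F)
  restr_class : ∀ i Z t, X.restr i Z (X.classT (S.face j i Z) t) = X.classS Z (R.restr i Z t)

/-- `span_class`: on the strata of `K (j + 1)`, every cohomology class of the strata of `K j` is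
equal to a combination of classes of divisors up to an element of `M`; the elements of `M` are
restrictions and orthogonal to the classes of divisors. (With `M = 0` this holds if `b_2 = rho`
for the strata of `K j`; in general `M` is the sum of the parts of the image of `rho` on which the
Frobenius has eigenvalues different from those of the classes of divisors, if the Tate conjecture
holds for the divisors of the strata of `K j`.) -/
structure Tate (M : Submodule F X.HS') : Prop where
  span_class : ∀ t : X.HT', ∃ t' : X.HT',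
    (∀ Y, t' Y ∈ Submodule.span F (Set.range (X.classT Y))) ∧ X.rho t - X.rho t' ∈ M
  range : ∀ m ∈ M, ∃ t, X.rho t = m
  orth : ∀ m ∈ M, ∀ Z x, X.num Z (m Z) (X.classS Z x) = 0

/-- The Frobenius condition for `M`; the form is the sum of the numbers
`A ^ (n - 2) . x_Z . y_Z`. -/
def Frob (M : Submodule F X.HS') : Prop := FrobPart (fun x y => ∑ Z, X.num Z (x Z) (y Z)) M

/-- The Gysin map from `K (j + 2)` to `K (j + 1)` in degree zero:
`(gys c)_Z = sum (-1)^i c_W [W]` over the pairs `(i, W)` with `face i W = Z`. -/
noncomputable def gys (c : S.K (j + 2) → F) : X.HS' := fun Z =>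
  ∑ p : S.Over (j + 1) Z, S.gysin F (j + 1) c Z p • X.classS Z (C'.div Z p)

/-- `E_2^{-e,q+e}` is `topKer` modulo `topIm`: the image of the cohomology of degree zero of
`K (j + 2)` under Gysin map and restriction. -/
noncomputable def topIm : Submodule F X.V :=
  Submodule.span F (Set.range fun c => (X.gys c, S.delta F (j + 2) c))

/-- `E_2^{e,q-e}` is `botKer` modulo `botIm`: in addition the image of the second cohomology of
`K j` under the restriction. -/
noncomputable def botIm : Submodule F X.V :=
  Submodule.span F (Set.range fun t => (X.rho t, 0)) ⊔ X.topIm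

/-- The sum over `Z` of `A ^ (dim Z - 2) . s_Z . (rho t)_Z`. -/
def pair (s : X.HS') (t : X.HT') : F := ∑ Z, X.num Z (s Z) (X.rho t Z)

/-- The degree (with respect to `A`) on the stratum `W` of `K (j + 2)` of the image of `(s, p)`
in its second cohomology: the degree of the restriction of `s`,
`sum_k (-1)^k A ^ (n - 2) . [W] . s` on `face k W`, plus that of the Gysin image of `p`. -/
noncomputable def degAt (s : X.HS') (p : S.K (j + 3) → F) (W : S.K (j + 2)) : F :=
  ∑ k : Fin (j + 3), (-1) ^ (k : ℕ) * X.num (S.face (j + 1) k W)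
    (X.classS (S.face (j + 1) k W) (C'.div (S.face (j + 1) k W) ⟨(k, W), rfl⟩))
    (s (S.face (j + 1) k W)) +
  ∑ q : S.Over (j + 2) W, S.gysin F (j + 2) p W q * (D.vol (j + 3) q.1.2 : F)

end CohData

/-- The kernels of the outgoing differentials: `kerT` is the kernel of the Gysin map to the
fourth cohomology of the strata of `K j`, `kerC` the kernel of the differential (restriction
plus Gysin map) to the second cohomology of the strata of `K (j + 2)`. `gys_mem` and `botIm_le`:
the square of the differential is zero. `pair_eq_zero`: `pair s t` is the product of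
`A ^ (n - 2)`, the Gysin image of `s`, and `t`. `degAt_eq_zero`: the degrees. -/
structure Ends {F : Type} [Field F] {S : Strata} {D : Numbers S} {j : ℕ} {C : Classes D j}
    {C' : Classes D (j + 1)} (X : CohData F C C') where
  kerT : Submodule F X.HS'
  kerC : Submodule F X.V
  gys_mem : ∀ c, X.gys c ∈ kerT
  pair_eq_zero : ∀ s ∈ kerT, ∀ t, X.pair s t = 0
  degAt_eq_zero : ∀ s p, (s, p) ∈ kerC → ∀ W, X.degAt s p W = 0
  botIm_le : X.botIm ≤ kerC

namespace Ends

variable {F : Type} [Field F] {S : Strata} {D : Numbers S} {j : ℕ} {C : Classes D j}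
  {C' : Classes D (j + 1)} {X : CohData F C C'} (Y : Ends X)

/-- `E_2^{e,q-e}` is `botKer` modulo `botIm`: the kernel of the differential to the second
cohomology of `K (j + 2)` and of the coboundary to `K (j + 4)`. -/
def botKer : Submodule F X.V := Submodule.prod ⊤ (S.cocyc F (j + 2)) ⊓ Y.kerC

/-- If the product of `A ^ (n - 2)`, `n = d - q + 2`, and the Gysin image of an element of
`botKer` is zero, this Gysin image is zero. By Poincare duality this is so if `q = d`; if `q < d`
it holds if `b_4 = b_2` for the strata of `K j`. -/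
def LefInj : Prop := ∀ z ∈ Y.botKer, (∀ t, X.pair z.1 t = 0) → z.1 ∈ Y.kerT

/-- `E_2^{-e,q+e}` is `topKer` modulo `topIm`: in addition the Gysin image in the fourth
cohomology is zero. -/
def topKer : Submodule F X.V := Y.kerT.prod (S.cocyc F (j + 2)) ⊓ Y.kerC

end Ends

/-- For subspaces `B ⊆ A`, `B' ⊆ A'` of a space of cochains: the identity induces an injective
map `A / B → A' / B'`. -/
def Inj2 {F V : Type} [Field F] [AddCommGroup V] [Module F V] (A B A' B' : Submodule F V) :
    Prop :=
  (B ≤ A ∧ B' ≤ A' ∧ A ≤ A' ∧ B ≤ B') ∧ ∀ a ∈ A, a ∈ B' → a ∈ B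

/-- For subspaces `B ⊆ A`, `B' ⊆ A'` of a space of cochains: the identity induces a bijective
map `A / B → A' / B'`. -/
def Bij2 {F V : Type} [Field F] [AddCommGroup V] [Module F V] (A B A' B' : Submodule F V) :
    Prop :=
  Inj2 A B A' B' ∧ ∀ z ∈ A', ∃ a ∈ A, z - a ∈ B'

/-- The graded pieces `gr_(q+e)` and `gr_(q-e)` are `A / B` and `A' / B'`, and `N ^ e` is
induced by the identity of the space `V` of cochains (a term of `E_1`), up to a nonzero
factor. -/
structure Induces2 {F H : Type} [Field F] [AddCommGroup H] [Module F H] (N : Module.End F H)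
    (P : ℤ → Submodule F H) (q : ℤ) (e : ℕ) {V : Type} [AddCommGroup V] [Module F V]
    (A B A' B' : Submodule F V) where
  grTop : Gr P (q + e) ≃ₗ[F] A ⧸ B.comap A.subtype
  grBot : Gr P (q - e) ≃ₗ[F] A' ⧸ B'.comap A'.subtype
  sgn : F
  sgn_ne : sgn ≠ 0
  pow : ∀ (x : P (q + e)) (y : P (q - e)) (a : A) (z : A'), (N ^ e) (x : H) = y →
    grTop (Submodule.Quotient.mk x) = Submodule.Quotient.mk a → (z : V) = a →
    grBot (Submodule.Quotient.mk y) = sgn • Submodule.Quotient.mk z

end Pool.Agent.MP_f8720a_ag
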