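import Pool.Agent.Lib.MP_f8720a_ag.ST.Lin

/-!
# The form is nondegenerate on the transcendental classes
-/

namespace Pool.Agent.MP_f8720a_ag

theorem FrobPart.nondeg_left {F V : Type} [Field F] [AddCommGroup V] [Module F V]
    [FiniteDimensional F V] (f : V →ₗ[F] V →ₗ[F] F) {B : V → V → F} (hf : ∀ x y, f x y = B x y)
    {M : Submodule F V} (h : M = ⊥ ∨ FrobPart B M) :
    ∀ m ∈ M, (∀ m' ∈ M, B m m' = 0) → m = 0 := by
  have hB : B = fun x y => f x y := by
    funext x y
    exact (hf x y).symm
  subst hB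
  rcases h with rfl | ⟨Φ, hiso, hnd, hM, hbal⟩
  · exact fun m hm _ => hm
  · exact balanced_nondeg f hiso hnd hM hbal

namespace Coh

variable {F : Type} [Field F] {S : Strata} {D : Numbers S} {j : ℕ}
  {C : Classes D j} {C' : Classes D (j + 1)} {R : Restr C C'}

/-- The sum of the forms. -/
def total (X : CohData F C C') (h : X.Laws R) : X.HS' →ₗ[F] X.HS' →ₗ[F] F :=
  LinearMap.mk₂ F (fun x y => ∑ Z, X.num Z (x Z) (y Z))
    (fun x x' y => by
      rw [← Finset.sum_add_distrib]
      exact Finset.sum_congr rfl fun Z _ => h.num_add Z _ _ _)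
    (fun a x y => by
      rw [smul_eq_mul, Finset.mul_sum]
      exact Finset.sum_congr rfl fun Z _ => h.num_smul Z _ _ _)
    (fun x y y' => by
      rw [← Finset.sum_add_distrib]
      refine Finset.sum_congr rfl fun Z _ => ?_
      rw [h.num_comm Z (x Z), h.num_comm Z (x Z), h.num_comm Z (x Z), Pi.add_apply, h.num_add])
    (fun a x y => by
      rw [smul_eq_mul, Finset.mul_sum]
      refine Finset.sum_congr rfl fun Z _ => ?_
      rw [h.num_comm Z (x Z), h.num_comm Z (x Z), Pi.smul_apply, h.num_smul])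

/-- Cohomology with its laws and the Frobenius condition. -/
def of (X : CohData F C C') {M : Submodule F X.HS'} (h : X.Laws R) (h' : X.Tate M)
    (hM : M = ⊥ ∨ X.Frob M) : Coh F R where
  toCohData := X
  M := M
  laws := h
  tate := h'
  nondeg m hm h1 := FrobPart.nondeg_left (total X h) (fun _ _ => rfl) hM m hm h1

end Coh

end Pool.Agent.MP_f8720a_ag
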