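import Pool.Agent.Lib.MP_f8720a_ag.ST.Main
import Pool.Agent.Lib.MP_f8720a_ag.ST.Frob

/-!
# An example: the product of the projective plane and a degenerate elliptic curve

Two components `T_0`, `T_1`, each `P^2 × P^1`, which meet in two disjoint planes `S_0`, `S_1`. The
ample class is `h + f`, `h` the class of a line of the plane times the projective line, `f` the
class of a plane. Both terms of `E_2` are not zero.
-/

namespace Pool.Agent.MP_f8720a_ag

namespace Two

/-- The strata: two threefolds, two surfaces. -/
def K : ℕ → Type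
  | 0 => Fin 2
  | 1 => Fin 2
  | _ + 2 => Empty

instance fin : ∀ m, Fintype (K m)
  | 0 => inferInstanceAs (Fintype (Fin 2))
  | 1 => inferInstanceAs (Fintype (Fin 2))
  | _ + 2 => inferInstanceAs (Fintype Empty)

/-- The numbers of the components that contain a stratum. -/
def num : ∀ m, K m → Fin (m + 1) → ℕ
  | 0 => fun v _ => (show Fin 2 from v : Fin 2)
  | 1 => fun _ => ![0, 1]
  | _ + 2 => fun Z => (show Empty from Z).elim

theorem num_mono : ∀ m (Z : K m), StrictMono (num m Z)
  | 0 => by
    intro Z i j hij
    exact absurd hij (by omega)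
  | 1 => by
    intro Z
    rw [Fin.strictMono_iff_lt_succ]
    revert Z
    show ∀ Z : Fin 2, _
    decide
  | _ + 2 => fun Z => (show Empty from Z).elim

/-- The faces. -/
def face : ∀ m, Fin (m + 2) → K (m + 1) → K m
  | 0 => fun i _ => (![1, 0] : Fin 2 → Fin 2) i
  | _ + 1 => fun _ Z => (show Empty from Z).elim

theorem num_face : ∀ (m : ℕ) (i : Fin (m + 2)) (Z : K (m + 1)) (t : Fin (m + 1)),
    num m (face m i Z) t = num (m + 1) Z (i.succAbove t)
  | 0 => by
    show ∀ (i : Fin 2) (Z : Fin 2) (t : Fin 1), _
    decide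
  | _ + 1 => fun _ Z => (show Empty from Z).elim

end Two

/-- The strata of the example. -/
def two : Strata where
  K := Two.K
  fin := Two.fin
  idx m Z := OrderEmbedding.ofStrictMono (Two.num m Z) (Two.num_mono m Z)
  face := Two.face
  idx_face m i Z t := Two.num_face m i Z t
  face_face _ _ _ _ W := (show Empty from W).elim

/-- The intersection numbers of the example: `(h + f)^3 = 3` on the threefolds, and one on the
planes, which have trivial normal bundles. -/
def twoNumbers : Numbers two where
  vol m _ := if m = 0 then 3 else 1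
  slf _ _ _ := 0

instance two_empty (m : ℕ) : IsEmpty (two.K (m + 2)) := ⟨fun W => (show Empty from W).elim⟩

instance two_over_empty (m : ℕ) (Z : two.K (m + 1)) : IsEmpty (two.Over (m + 1) Z) :=
  ⟨fun p => (two_empty m).elim p.1.2⟩

theorem two_common (m : ℕ) (Z Z' : two.K (m + 1)) : twoNumbers.common m Z Z' = 0 := by
  unfold Numbers.common
  exact Finset.sum_eq_zero fun W _ => (two_empty m).elim W

theorem two_inter (m : ℕ) (Y : two.K m) (p p' : two.Over m Y) : twoNumbers.inter m Y p p' = 0 := by
  unfold Numbers.inter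
  split
  · rfl
  · exact two_common _ _ _

theorem two_polarised : twoNumbers.IsPolarised where
  vol_pos m _ := by
    show (0 : ℚ) < if m = 0 then 3 else 1
    split <;> norm_num
  slf_sum m Z := by
    rw [two_common, neg_zero]
    exact Finset.sum_eq_zero fun _ _ => rfl
  index m Y x := by
    simp only [two_inter, mul_zero, Finset.sum_const_zero]
    exact sq_nonneg _

/-- `A . x . y` on `P^2 × P^1`, `x = x_1 h + x_2 f`. -/
def twoForm (R : Type) [Field R] (x y : R × R) : R := x.1 * y.1 + x.1 * y.2 + x.2 * y.1

theorem twoForm_apply (R : Type) [Field R] (x y : R × R) :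
    twoForm R x y = x.1 * y.1 + x.1 * y.2 + x.2 * y.1 := rfl

/-- The divisor classes on the threefolds. -/
def twoT : Classes twoNumbers 0 where
  N _ := ℚ × ℚ
  num _ := twoForm ℚ
  ample _ := (1, 1)
  div _ _ := (0, 1)
  num_add _ x x' y := by
    rw [twoForm_apply, twoForm_apply, twoForm_apply, Prod.fst_add, Prod.snd_add]
    ring
  num_comm _ x y := by
    rw [twoForm_apply, twoForm_apply]
    ring
  num_nondeg _ x h := by
    have h1 := h (0, 1)
    have h2 := h (1, 0)
    rw [twoForm_apply] at h1 h2
    simp only [mul_zero, mul_one, zero_add, add_zero] at h1 h2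
    rw [h1, zero_add] at h2
    exact Prod.ext h1 h2
  num_ample_ample Z := by
    rw [twoForm_apply]
    show _ = (if (0 : ℕ) = 0 then (3 : ℚ) else 1)
    norm_num
  num_ample_div Z p := by
    rw [twoForm_apply]
    show _ = (if (1 : ℕ) = 0 then (3 : ℚ) else 1)
    norm_num
  num_div_div Z p p' := by
    rw [two_inter, twoForm_apply]
    norm_num
  num_index Z x := by
    rw [twoForm_apply, twoForm_apply]
    show (if (0 : ℕ) = 0 then (3 : ℚ) else 1) * _ ≤ _
    rw [if_pos rfl]
    nlinarith [sq_nonneg (x.1 - x.2)]

/-- The divisor classes on the planes. -/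
def twoS : Classes twoNumbers 1 where
  N _ := ℚ
  num _ x y := x * y
  ample _ := 1
  div Z p := (two_over_empty 0 Z).elim p
  num_add _ x x' y := add_mul x x' y
  num_comm _ x y := mul_comm x y
  num_nondeg _ x h := by simpa using h 1
  num_ample_ample Z := by
    show (1 : ℚ) * 1 = (if (1 : ℕ) = 0 then (3 : ℚ) else 1)
    norm_num
  num_ample_div Z p := (two_over_empty 0 Z).elim p
  num_div_div Z p := (two_over_empty 0 Z).elim p
  num_index Z x := by
    show (if (1 : ℕ) = 0 then (3 : ℚ) else 1) * (x * x) ≤ (1 * x) ^ 2
    norm_num [sq]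

/-- The restrictions: `h` restricts to a line and `f` to zero. -/
def twoRestr : Restr twoT twoS where
  restr _ _ t := t.1
  deg W := (two_empty 0).elim W
  restr_add _ _ _ _ := rfl
  restr_ample _ _ := rfl
  num_restr i Z t := by
    show (0 : ℚ) * t.1 + 0 * t.2 + 1 * t.1 = 1 * t.1
    ring
  restr_deg _ W := (two_empty 0).elim W

/-- The second cohomology of the example. -/
def twoData (F : Type) [Field F] : CohData F twoT twoS where
  HT _ := F × F
  HS _ := F
  finS _ := inferInstanceAs (FiniteDimensional F F)
  num _ x y := x * y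
  classT _ (t : ℚ × ℚ) := (((t.1 : ℚ) : F), ((t.2 : ℚ) : F))
  classS _ (t : ℚ) := (t : F)
  restr _ _ t := t.1

theorem two_laws (F : Type) [Field F] [CharZero F] : (twoData F).Laws twoRestr where
  num_add _ x x' y := add_mul (show F from x) (show F from x') (show F from y)
  num_smul _ a x y := mul_assoc a (show F from x) (show F from y)
  num_comm _ x y := mul_comm (show F from x) (show F from y)
  classT_add _ _ _ := Prod.ext (Rat.cast_add _ _) (Rat.cast_add _ _)
  classS_add _ t t' := Rat.cast_add (α := F) (show ℚ from t) (show ℚ from t')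
  restr_add _ _ _ _ := rfl
  restr_smul _ _ _ _ := rfl
  num_class _ x y := (Rat.cast_mul (α := F) (show ℚ from x) (show ℚ from y)).symm
  restr_class _ _ _ := rfl

theorem two_tate (F : Type) [Field F] [CharZero F] : (twoData F).Tate ⊥ where
  span_class t := by
    refine ⟨t, fun Y => ?_, sub_self _⟩
    have key : ∀ x : F × F, x ∈ Submodule.span F
        (Set.range fun y : ℚ × ℚ => (((y.1 : ℚ) : F), ((y.2 : ℚ) : F))) := by
      rintro ⟨a, b⟩
      have h1 : ((a, b) : F × F) = a • ((1, 0) : F × F) + b • ((0, 1) : F × F) := by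
        simp
      rw [h1]
      refine add_mem (Submodule.smul_mem _ _ (Submodule.subset_span ⟨((1, 0) : ℚ × ℚ), ?_⟩))
        (Submodule.smul_mem _ _ (Submodule.subset_span ⟨((0, 1) : ℚ × ℚ), ?_⟩))
      · simp
      · simp
    exact key (t Y)
  range m hm := by
    have h1 : m = 0 := hm
    exact ⟨0, by
      rw [h1]
      funext Z
      refine Finset.sum_eq_zero fun i _ => ?_
      exact mul_zero ((-1 : F) ^ (i : ℕ))⟩
  orth m hm Z x := by
    have h1 : m = 0 := hm
    rw [h1]
    exact zero_mul (show F from (twoData F).classS Z x)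

/-- The second cohomology of the example, with its laws. -/
def twoCoh (F : Type) [Field F] [CharZero F] : Coh F twoRestr := 
  Coh.of (twoData F) (two_laws F) (two_tate F) (Or.inl rfl)

/-- The first term of `E_2` of the example (the middle case, `q = d = 3`) is not zero. -/
theorem two_ne (F : Type) [Field F] [CharZero F] :
    ∃ x ∈ (Ends.middle two_polarised (twoCoh F)).topKer, x ∉ (twoCoh F).topIm := by
  let z : Fin 2 → F := ![1, -1]
  refine ⟨((z : ∀ Z : two.K 1, F), 0), ⟨⟨?_, ?_⟩, ?_⟩, ?_⟩
  · refine Ends.middle_lefInj two_polarised (twoCoh F) _ fun t => ?_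
    let a : Fin 2 → F := fun Z => (twoCoh F).rho t (show two.K 1 from Z)
    have h1 : a 1 = a 0 := by
      have e := (twoCoh F).rho_apply t (show two.K 1 from (1 : Fin 2))
      have e' := (twoCoh F).rho_apply t (show two.K 1 from (0 : Fin 2))
      exact e.trans e'.symm
    show ∑ Z : Fin 2, z Z * a Z = 0
    rw [Fin.sum_univ_two, h1]
    show 1 * a 0 + (-1) * a 0 = 0
    ring
  · show two.delta F 3 0 = 0
    exact map_zero _
  · show (twoCoh F).degOut _ = 0
    funext W
    exact (two_empty 0).elim W
  · rw [(twoCoh F).topIm_eq]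
    rintro ⟨c, hc⟩
    have h1 : c = 0 := by
      funext W
      exact (two_empty 0).elim W
    rw [h1, map_zero] at hc
    have h2 := congrFun (congrArg Prod.fst hc) (0 : Fin 2)
    have h3 : (0 : F) = 1 := h2
    exact zero_ne_one h3

end Pool.Agent.MP_f8720a_ag
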