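import Pool.Agent.Lib.MP_f8720a_ag.ST.Row

/-!
# The step `e = q - 2` with explicit terms is a row
-/

namespace Pool.Agent.MP_f8720a_ag

namespace Ends

variable {F : Type} [Field F] [CharZero F] {S : Strata} {D : Numbers S} {j : ℕ}
  {C : Classes D j} {C' : Classes D (j + 1)} {R : Restr C C'} {X : Coh F R}
  (Y : Ends X.toCohData)

/-- The terms of the step `e = q - 2` as a row. -/
noncomputable def toRow : Row F where
  A := X.HS'
  B := S.K (j + 3) → F
  kerT := Y.kerT
  imT := LinearMap.range X.rho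
  ker := Y.botKer
  im := X.topIm
  im_le := Y.topIm_le_topKer.trans Y.topKer_le
  im_le' := Y.topIm_le_topKer.trans fun _ h => ⟨h.1.1, trivial⟩
  imT_le := by
    rintro ⟨a, b⟩ ⟨⟨t, ht⟩, hb⟩
    have ht' : X.rho t = a := ht
    have hb' : b = 0 := hb
    rw [← ht', hb']
    exact Y.botIm_le_botKer (innT_mem_botIm t)
  form x y := ∑ Z, X.num Z (x Z) (y Z)
  form_add x x' y := by
    rw [← Finset.sum_add_distrib]
    exact Finset.sum_congr rfl fun Z _ => X.laws.num_add Z _ _ _
  form_smul a x y := by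
    rw [Finset.mul_sum]
    exact Finset.sum_congr rfl fun Z _ => X.laws.num_smul Z _ _ _
  sgn := 1
  comm x y := by
    rw [one_mul]
    exact Finset.sum_congr rfl fun Z _ => X.laws.num_comm Z _ _
  orth := by
    rintro x hx _ ⟨t, rfl⟩
    exact Y.pair_eq_zero x hx t

theorem toRow_topKer : Y.toRow.topKer = Y.topKer := by
  ext x
  constructor
  · rintro ⟨⟨h1, _⟩, ⟨⟨_, h2⟩, h3⟩⟩
    exact ⟨⟨h1, h2⟩, h3⟩
  · rintro ⟨⟨h1, h2⟩, h3⟩
    exact ⟨⟨h1, trivial⟩, ⟨⟨trivial, h2⟩, h3⟩⟩

theorem toRow_botIm : Y.toRow.botIm = X.botIm := by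
  rw [X.botIm_eq, ← X.topIm_eq]
  refine congrArg (· ⊔ X.topIm) ?_
  ext x
  constructor
  · rintro ⟨⟨t, h1⟩, h2⟩
    exact ⟨t, Prod.ext h1 (show (0 : S.K (j + 3) → F) = x.2 from Eq.symm h2)⟩
  · rintro ⟨t, rfl⟩
    exact ⟨⟨t, rfl⟩, rfl⟩

theorem toRow_lefInj : Y.toRow.LefInj ↔ Y.LefInj := by
  constructor
  · intro h z hz h1
    refine h z hz ?_
    rintro _ ⟨t, rfl⟩
    exact h1 t
  · intro h z hz h1
    exact h z hz fun t => h1 _ ⟨t, rfl⟩

variable [DecidableEq (S.K (j + 1))]

/-- The class of a divisor on one stratum as a class on all strata. -/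
def cls (X : Coh F R) (Z : S.K (j + 1)) (x : C'.N Z) : X.HS' := Pi.single Z (X.classS Z x)

theorem cls_res (t : ∀ Y, C.N Y) :
    Y.toRow.resAt R (cls X) t = X.rho fun Y => X.classT Y (t Y) := by
  funext Z
  have h1 : Y.toRow.resAt R (cls X) t = ∑ Z, ∑ i : Fin (j + 2), (-1 : F) ^ (i : ℕ) •
      (Pi.single Z (X.classS Z (R.restr i Z (t (S.face j i Z)))) : X.HS') := rfl
  rw [h1, Finset.sum_apply, Finset.sum_eq_single Z]
  · rw [Finset.sum_apply]
    show _ = ∑ i : Fin (j + 2), (-1 : F) ^ (i : ℕ) • X.restr i Z _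
    refine Finset.sum_congr rfl fun i _ => ?_
    rw [Pi.smul_apply, Pi.single_eq_same, X.laws.restr_class]
  · intro Z' _ h
    rw [Finset.sum_apply]
    refine Finset.sum_eq_zero fun i _ => ?_
    rw [Pi.smul_apply, Pi.single_eq_of_ne (fun e => h e.symm), smul_zero]
  · intro h
    exact absurd (Finset.mem_univ _) h

theorem cls_gys (c : S.K (j + 2) → F) : Y.toRow.gysAt (cls X) c = X.gys c := by
  funext Z
  have h1 : Y.toRow.gysAt (cls X) c = ∑ Z, ∑ p : S.Over (j + 1) Z, S.gysin F (j + 1) c Z p •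
      (Pi.single Z (X.classS Z (C'.div Z p)) : X.HS') := rfl
  rw [h1, Finset.sum_apply, Finset.sum_eq_single Z]
  · rw [Finset.sum_apply]
    show _ = ∑ p : S.Over (j + 1) Z, S.gysin F (j + 1) c Z p • X.classS Z (C'.div Z p)
    refine Finset.sum_congr rfl fun p _ => ?_
    rw [Pi.smul_apply, Pi.single_eq_same]
  · intro Z' _ h
    rw [Finset.sum_apply]
    refine Finset.sum_eq_zero fun p _ => ?_
    rw [Pi.smul_apply, Pi.single_eq_of_ne (fun e => h e.symm), smul_zero]
  · intro h
    exact absurd (Finset.mem_univ _) h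

omit [DecidableEq (S.K (j + 1))] in
/-- The row of the step `e = q - 2` is good. -/
theorem toRow_good (hM : X.M = ⊥ ∨ X.Frob X.M) : Y.toRow.Good D j := by
  classical
  have hdiv : ∀ t : ∀ Y, C.N Y, X.rho (fun Y => X.classT Y (t Y)) ∈
      Submodule.span F (Set.range (Y.toRow.resAt R (cls X))) := fun t =>
    Submodule.subset_span ⟨t, cls_res Y t⟩
  refine ⟨Submodule.span F (Set.range (Y.toRow.resAt R (cls X))), X.M, ?_, ?_,
    Or.inr (Or.inr ⟨C, C', R,
    ⟨{ cls := cls X
       cls_add := ?_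
       form_cls := ?_
       form_ne := ?_
       alg_eq := rfl
       im_gys := ?_
       ker_gys := ?_ }⟩⟩), hM⟩
  · refine le_antisymm ?_ (sup_le ?_ ?_)
    · rintro _ ⟨t, rfl⟩
      obtain ⟨t', ht', h⟩ := X.tate.span_class t
      have h1 : X.rho t' ∈ Submodule.span F (Set.range (Y.toRow.resAt R (cls X))) := by
        have h2 : X.rho t' = ∑ T, X.rho (Pi.single T (t' T)) := by
          rw [← map_sum, Finset.univ_sum_single]
        rw [h2]
        refine Submodule.sum_mem _ fun T _ => ?_
        have h3 : Submodule.span F (Set.range (X.classT T)) ≤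
            (Submodule.span F (Set.range (Y.toRow.resAt R (cls X)))).comap
              (X.rho.comp (LinearMap.single F X.HT T)) := by
          rw [Submodule.span_le]
          rintro _ ⟨x, rfl⟩
          have h4 : (Pi.single T (X.classT T x) : X.HT') =
              fun T' => X.classT T' ((Pi.single T x : ∀ Y, C.N Y) T') := by
            funext T'
            by_cases h5 : T' = T
            · subst h5
              rw [Pi.single_eq_same, Pi.single_eq_same]
            · rw [Pi.single_eq_of_ne h5, Pi.single_eq_of_ne h5]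
              exact (map_zero (X.clT T')).symm
          show X.rho (Pi.single T (X.classT T x)) ∈
            Submodule.span F (Set.range (Y.toRow.resAt R (cls X)))
          rw [h4]
          exact hdiv _
        exact h3 (ht' T)
      have h6 : X.rho t = X.rho t' + (X.rho t - X.rho t') := by abel
      rw [h6]
      exact Submodule.add_mem_sup h1 h
    · rw [Submodule.span_le]
      rintro _ ⟨t, rfl⟩
      exact ⟨_, (cls_res Y t).symm⟩
    · intro m hm
      obtain ⟨t, ht⟩ := X.tate.range m hm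
      exact ⟨t, ht⟩
  · intro x hx m hm
    have h1 : Submodule.span F (Set.range (Y.toRow.resAt R (cls X))) ≤
        LinearMap.ker (Y.toRow.frm.flip m) := by
      rw [Submodule.span_le]
      rintro _ ⟨t, rfl⟩
      show ∑ Z, X.num Z (Y.toRow.resAt R (cls X) t Z) (m Z) = 0
      rw [cls_res]
      refine Finset.sum_eq_zero fun Z _ => ?_
      rw [X.laws.num_comm, X.rho_apply]
      show X.cup Z (m Z) _ = 0
      rw [map_sum]
      refine Finset.sum_eq_zero fun i _ => ?_
      rw [map_smul]
      have h2 : X.cup Z (m Z) (X.clS Z (R.res i Z (t (S.face j i Z)))) = 0 :=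
        X.tate.orth m hm Z _
      have h3 : X.res i Z (X.classT (S.face j i Z) (t (S.face j i Z))) =
          X.clS Z (R.res i Z (t (S.face j i Z))) := X.res_cl i Z _
      rw [h3, h2, smul_zero]
    exact h1 hx
  · intro Z x y
    show Pi.single Z (X.classS Z (x + y)) = Pi.single Z (X.classS Z x) + Pi.single Z (X.classS Z y)
    rw [X.laws.classS_add, Pi.single_add]
  · intro Z x y
    show ∑ Z', X.num Z' ((Pi.single Z (X.classS Z x) : X.HS') Z')
      ((Pi.single Z (X.classS Z y) : X.HS') Z') = _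
    rw [Finset.sum_eq_single Z]
    · rw [Pi.single_eq_same, Pi.single_eq_same]
      exact X.laws.num_class Z x y
    · intro Z' _ h
      rw [Pi.single_eq_of_ne h]
      exact LinearMap.congr_fun (map_zero (X.cup Z')) _
    · intro h
      exact absurd (Finset.mem_univ _) h
  · intro Z Z' hZ x y
    show ∑ Z'', X.num Z'' ((Pi.single Z (X.classS Z x) : X.HS') Z'')
      ((Pi.single Z' (X.classS Z' y) : X.HS') Z'') = 0
    refine Finset.sum_eq_zero fun Z'' _ => ?_
    by_cases h : Z'' = Z
    · subst h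
      rw [Pi.single_eq_of_ne hZ]
      exact map_zero (X.cup Z'' _)
    · rw [Pi.single_eq_of_ne h]
      exact LinearMap.congr_fun (map_zero (X.cup Z'')) _
  · intro c hc
    have h0 : Y.toRow.gysAt (cls X) c = X.gys c := cls_gys Y c
    have h1 : X.inn c = ((X.gys c, 0) : X.V) := Prod.ext rfl hc
    rw [h0]
    show ((X.gys c, 0) : X.V) ∈ X.topIm
    rw [← h1]
    exact inn_mem_topIm c
  · rintro z ⟨⟨_, _⟩, hz⟩ c hc
    have h0 : Y.toRow.gysAt (cls X) c = X.gys c := cls_gys Y c
    rw [h0]
    have h1 := X.pair_inn z c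
    have h2 : X.degOut z = 0 := by
      funext W
      exact (X.degAt_eq _ _ W).symm.trans (Y.degAt_eq_zero z.1 z.2 hz W)
    rw [h2, hc] at h1
    show ∑ Z, X.cup Z (z.1 Z) (X.gys c Z) = 0
    simpa using h1

end Ends

end Pool.Agent.MP_f8720a_ag
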