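import Pool.Agent.Lib.MP_f8720a_ag.ST.Ex
import Pool.Agent.Lib.MP_f8720a_ag.ST.ToRow

/-!
# An example with a transcendental part

The strata are those of the example `two`. The second cohomology of each of the threefolds has in
addition a plane, and so has that of each of the surfaces; the plane of the threefolds restricts
isomorphically to the first surface, with Frobenius eigenvalues `± √-1`, and to zero on the second
one, on whose plane the eigenvalues are the roots of `X² - X + 1`. The form is that of these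
rotations. `-1` is not a square in `F`.
-/

namespace Pool.Agent.MP_f8720a_ag

open Polynomial

/-- a threefold -/
def t0 : two.K 0 := (0 : Fin 2)

/-- a threefold -/
def t1 : two.K 0 := (1 : Fin 2)

/-- a surface -/
def s0 : two.K 1 := (0 : Fin 2)

/-- a surface -/
def s1 : two.K 1 := (1 : Fin 2)

theorem two_cases (Z : two.K 1) : Z = s0 ∨ Z = s1 := by
  have key : ∀ Z : Fin 2, Z = 0 ∨ Z = 1 := by decide
  exact key Z

/-- The second cohomology of a surface of the example: a class of a divisor and a plane. -/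
abbrev FrS (F : Type) [Field F] : Type := F × (F × F)

/-- The map `(x, y) ↦ (-y, x + k y)` of the plane. -/
def frRot (F : Type) [Field F] (k : F) : Module.End F (F × F) where
  toFun v := (-v.2, v.1 + k * v.2)
  map_add' u v := by
    ext
    · simp only [Prod.snd_add, Prod.fst_add]
      ring
    · simp only [Prod.snd_add, Prod.fst_add]
      ring
  map_smul' c v := by
    ext
    · simp only [Prod.smul_snd, smul_eq_mul, RingHom.id_apply, Prod.smul_fst]
      ring
    · simp only [Prod.smul_snd, smul_eq_mul, RingHom.id_apply, Prod.smul_fst]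
      ring

theorem frRot_apply (F : Type) [Field F] (k : F) (v : F × F) :
    frRot F k v = (-v.2, v.1 + k * v.2) := rfl

/-- The symmetric form of the plane which the map preserves. -/
def frForm (F : Type) [Field F] (k : F) (u v : F × F) : F :=
  2 * (u.1 * v.1) + k * (u.1 * v.2 + u.2 * v.1) + 2 * (u.2 * v.2)

theorem frForm_apply (F : Type) [Field F] (k : F) (u v : F × F) :
    frForm F k u v = 2 * (u.1 * v.1) + k * (u.1 * v.2 + u.2 * v.1) + 2 * (u.2 * v.2) := rfl

theorem frForm_zero (F : Type) [Field F] (k : F) (u : F × F) : frForm F k u 0 = 0 := by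
  rw [frForm_apply]
  simp

theorem frForm_rot (F : Type) [Field F] (k : F) (u v : F × F) :
    frForm F k (frRot F k u) (frRot F k v) = frForm F k u v := by
  rw [frForm_apply, frForm_apply, frRot_apply, frRot_apply]
  ring

theorem frForm_nondeg (F : Type) [Field F] (k : F) (hk : 4 - k ^ 2 ≠ 0) (u : F × F)
    (h : ∀ v, frForm F k u v = 0) : u = 0 := by
  have h1 := h (1, 0)
  have h2 := h (0, 1)
  rw [frForm_apply] at h1 h2
  simp only [mul_one, mul_zero, add_zero, zero_add] at h1 h2
  refine Prod.ext ?_ ?_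
  · refine (mul_eq_zero.1 (?_ : (4 - k ^ 2) * u.1 = 0)).resolve_left hk
    linear_combination 2 * h1 - k * h2
  · refine (mul_eq_zero.1 (?_ : (4 - k ^ 2) * u.2 = 0)).resolve_left hk
    linear_combination 2 * h2 - k * h1

/-- `0` on the first, `1` on the second surface. -/
def frK (F : Type) [Field F] (Z : two.K 1) : F := ((show Fin 2 from Z).val : F)

theorem frK_zero (F : Type) [Field F] : frK F s0 = 0 := Nat.cast_zero

theorem frK_one (F : Type) [Field F] : frK F s1 = 1 := Nat.cast_one

theorem frK_ne (F : Type) [Field F] [CharZero F] (Z : two.K 1) : 4 - frK F Z ^ 2 ≠ 0 := by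
  rcases two_cases Z with rfl | rfl
  · rw [frK_zero]
    norm_num
  · rw [frK_one]
    norm_num

/-- The Frobenius on the second cohomology of the surfaces. -/
def frPhi (F : Type) [Field F] : Module.End F (∀ _ : two.K 1, FrS F) where
  toFun v Z := ((v Z).1, frRot F (frK F Z) (v Z).2)
  map_add' u v := by
    funext Z
    exact Prod.ext rfl (map_add (frRot F (frK F Z)) (u Z).2 (v Z).2)
  map_smul' c v := by
    funext Z
    exact Prod.ext rfl (map_smul (frRot F (frK F Z)) c (v Z).2)

theorem frPhi_apply (F : Type) [Field F] (v : ∀ _ : two.K 1, FrS F) (Z : two.K 1) :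
    frPhi F v Z = ((v Z).1, frRot F (frK F Z) (v Z).2) := rfl

/-- The plane on the first surface. -/
def frW (F : Type) [Field F] : Submodule F (∀ _ : two.K 1, FrS F) where
  carrier := {v | (v s0).1 = 0 ∧ v s1 = 0}
  add_mem' := by
    rintro u v ⟨h1, h2⟩ ⟨h3, h4⟩
    refine ⟨?_, ?_⟩
    · show (u s0).1 + (v s0).1 = 0
      rw [h1, h3, add_zero]
    · show u s1 + v s1 = 0
      rw [h2, h4, add_zero]
  zero_mem' := ⟨rfl, rfl⟩
  smul_mem' := by
    rintro c v ⟨h1, h2⟩
    refine ⟨?_, ?_⟩
    · show c * (v s0).1 = 0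
      rw [h1, mul_zero]
    · show c • v s1 = 0
      rw [h2, smul_zero]

theorem frW_finrank (F : Type) [Field F] : Module.finrank F (frW F) ≤ 2 := by
  let g : frW F →ₗ[F] F × F :=
    { toFun := fun v => (v.1 s0).2
      map_add' := fun _ _ => rfl
      map_smul' := fun _ _ => rfl }
  have hg : Function.Injective g := by
    rw [injective_iff_map_eq_zero]
    rintro ⟨v, h1, h2⟩ h
    apply Subtype.ext
    funext Z
    rcases two_cases Z with rfl | rfl
    · exact Prod.ext h1 h
    · exact h2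
  have := LinearMap.finrank_le_finrank_of_injective hg
  rwa [Module.finrank_prod, Module.finrank_self] at this

theorem frPhi_sq {F : Type} [Field F] (v : ∀ _ : two.K 1, FrS F) (Z : two.K 1) :
    aeval (frPhi F) (X ^ 2 + 1 : F[X]) v Z = ((v Z).1 + (v Z).1,
      frRot F (frK F Z) (frRot F (frK F Z) (v Z).2) + (v Z).2) := by
  rw [map_add, map_pow, aeval_X, map_one, LinearMap.add_apply, pow_two, Module.End.mul_apply,
    Module.End.one_apply]
  rfl

theorem frPhi_sq_mem {F : Type} [Field F] {v : ∀ _ : two.K 1, FrS F} (hv : v ∈ frW F) :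
    aeval (frPhi F) (X ^ 2 + 1 : F[X]) v = 0 := by
  funext Z
  rw [frPhi_sq]
  rcases two_cases Z with rfl | rfl
  · rw [hv.1, frK_zero, frRot_apply, frRot_apply]
    refine Prod.ext (add_zero 0) (Prod.ext ?_ ?_)
    · show -((v s0).2.1 + 0 * (v s0).2.2) + (v s0).2.1 = 0
      ring
    · show -(v s0).2.2 + 0 * ((v s0).2.1 + 0 * (v s0).2.2) + (v s0).2.2 = 0
      ring
  · rw [hv.2, Prod.snd_zero, map_zero, map_zero, add_zero, Prod.fst_zero, add_zero]
    rfl

theorem frPhi_ker {F : Type} [Field F] [CharZero F] {v : ∀ _ : two.K 1, FrS F}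
    (hv : aeval (frPhi F) (X ^ 2 + 1 : F[X]) v ∈ frW F) : v ∈ frW F := by
  obtain ⟨h0, h1⟩ := hv
  rw [frPhi_sq] at h0 h1
  have a0 : (v s0).1 + (v s0).1 = 0 := h0
  have a1 : (v s1).1 + (v s1).1 = 0 := congrArg Prod.fst h1
  have b := congrArg Prod.snd h1
  rw [frK_one, frRot_apply, frRot_apply] at b
  have b1 : -((v s1).2.1 + 1 * (v s1).2.2) + (v s1).2.1 = 0 := congrArg Prod.fst b
  have b2 : -(v s1).2.2 + 1 * ((v s1).2.1 + 1 * (v s1).2.2) + (v s1).2.2 = 0 :=
    congrArg Prod.snd b
  have c2 : (v s1).2.2 = 0 := by linear_combination -b1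
  have c1 : (v s1).2.1 = 0 := by linear_combination b2 - c2
  refine ⟨?_, Prod.ext ?_ (Prod.ext c1 c2)⟩
  · exact self_eq_neg.1 (eq_neg_of_add_eq_zero_left a0)
  · exact self_eq_neg.1 (eq_neg_of_add_eq_zero_left a1)

/-- The plane is balanced if `-1` is not a square. -/
theorem frW_balanced (F : Type) [Field F] [CharZero F] (hF : ∀ x : F, x ^ 2 ≠ -1) :
    Balanced (frPhi F) (frW F) := by
  intro f hf hx
  obtain ⟨x, hxW, hx0, hfx⟩ := hx
  have hd : (X ^ 2 + 1 : F[X]).natDegree = 2 := by compute_degree!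
  have hirr : Irreducible (X ^ 2 + 1 : F[X]) := by
    refine (irreducible_iff_roots_eq_zero_of_degree_le_three (by rw [hd]) (by rw [hd]; norm_num)).2 ?_
    refine Multiset.eq_zero_of_forall_notMem fun a ha => hF a ?_
    have h1 := isRoot_of_mem_roots ha
    rw [IsRoot.def, eval_add, eval_pow, eval_X, eval_one] at h1
    exact eq_neg_of_add_eq_zero_left h1
  have hdvd : f ∣ X ^ 2 + 1 := by
    by_contra hn
    obtain ⟨a, b, hab⟩ := (hf.coprime_iff_not_dvd.2 hn)
    apply hx0
    have h2 := congrArg (fun p => aeval (frPhi F) p x) hab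
    simp only [map_add, map_mul, map_one, LinearMap.add_apply, Module.End.mul_apply,
      Module.End.one_apply, hfx, map_zero, zero_add] at h2
    have h3 := frPhi_sq_mem hxW
    rw [map_add, map_one, LinearMap.add_apply, Module.End.one_apply] at h3
    rw [← map_add, h3, map_zero] at h2
    exact h2.symm
  obtain ⟨u, hu⟩ := hf.associated_of_dvd hirr hdvd
  obtain ⟨c, hc, hcu⟩ := isUnit_iff.1 u.isUnit
  have hc0 : c ≠ 0 := hc.ne_zero
  have hfe : f = C c⁻¹ * (X ^ 2 + 1) := by
    rw [← hu, ← hcu, mul_comm f, ← mul_assoc, ← C_mul, inv_mul_cancel₀ hc0, C_1, one_mul]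
  have hci : c⁻¹ ≠ 0 := inv_ne_zero hc0
  have hdeg : f.natDegree = 2 := by
    rw [hfe, natDegree_C_mul hci, hd]
  have hker : LinearMap.ker (aeval (frPhi F) f ^ 2) ≤ frW F := by
    intro v hv
    rw [LinearMap.mem_ker, pow_two, Module.End.mul_apply] at hv
    have key : ∀ v, aeval (frPhi F) f v ∈ frW F → v ∈ frW F := by
      intro v hv
      rw [hfe, map_mul, aeval_C, Module.End.mul_apply, Module.algebraMap_end_apply] at hv
      exact frPhi_ker (((frW F).smul_mem_iff hci).1 hv)
    exact key _ (key _ (by rw [hv]; exact zero_mem _))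
  refine ⟨?_, x, hxW, hx0, ?_⟩
  · rw [hdeg]
    exact (Submodule.finrank_mono hker).trans (frW_finrank F)
  · have hrev : f.reverse = f := by
      rw [hfe, reverse_mul_of_domain, reverse_C]
      congr 1
      ext n
      rw [coeff_reverse, hd]
      rcases Nat.lt_or_ge 2 n with hn | hn
      · rw [revAt_eq_self_of_lt hn]
      · rw [revAt_le hn]
        interval_cases n <;> simp [coeff_X_pow, coeff_one]
    rw [hrev]
    exact hfx

/-- The second cohomology of the example. -/
def frData (F : Type) [Field F] : CohData F twoT twoS where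
  HT _ := (F × F) × (F × F)
  HS _ := FrS F
  finS _ := inferInstanceAs (FiniteDimensional F (F × (F × F)))
  num Z x y := x.1 * y.1 + frForm F (frK F Z) x.2 y.2
  classT _ (t : ℚ × ℚ) := ((((t.1 : ℚ) : F), ((t.2 : ℚ) : F)), 0)
  classS _ (t : ℚ) := ((t : F), 0)
  restr _ Z t := (t.1.1, (1 - frK F Z) • t.2)

theorem frData_num (F : Type) [Field F] (Z : two.K 1) (x y : FrS F) :
    (frData F).num Z x y = x.1 * y.1 + frForm F (frK F Z) x.2 y.2 := rfl

theorem fr_laws (F : Type) [Field F] [CharZero F] : (frData F).Laws twoRestr where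
  num_add Z x x' y := by
    show (x.1 + x'.1) * y.1 + frForm F (frK F Z) (x.2 + x'.2) y.2 = x.1 * y.1 + _ + (x'.1 * y.1 + _)
    rw [frForm_apply, frForm_apply, frForm_apply, Prod.fst_add, Prod.snd_add]
    ring
  num_smul Z a x y := by
    show (a * x.1) * y.1 + frForm F (frK F Z) (a • x.2) y.2 = a * (x.1 * y.1 + _)
    rw [frForm_apply, frForm_apply, Prod.smul_fst, Prod.smul_snd, smul_eq_mul, smul_eq_mul]
    ring
  num_comm Z x y := by
    show x.1 * y.1 + frForm F (frK F Z) x.2 y.2 = y.1 * x.1 + frForm F (frK F Z) y.2 x.2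
    rw [frForm_apply, frForm_apply]
    ring
  classT_add _ t t' := Prod.ext (Prod.ext (Rat.cast_add _ _) (Rat.cast_add _ _)) (add_zero 0).symm
  classS_add _ t t' := Prod.ext (Rat.cast_add (α := F) (show ℚ from t) (show ℚ from t'))
    (add_zero 0).symm
  restr_add _ Z t t' := Prod.ext rfl (smul_add (1 - frK F Z) t.2 t'.2)
  restr_smul _ Z a t := Prod.ext rfl (smul_comm (1 - frK F Z) a t.2)
  num_class Z x y := by
    have key : ∀ x y : ℚ, (x : F) * (y : F) + frForm F (frK F Z) 0 0 = ((x * y : ℚ) : F) := by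
      intro x y
      rw [frForm_zero, add_zero, Rat.cast_mul]
    exact key x y
  restr_class _ Z _ := Prod.ext rfl (smul_zero (1 - frK F Z))

/-- The restriction in the example. -/
def frRho (F : Type) [Field F] (t : two.K 0 → (F × F) × (F × F)) : ∀ _ : two.K 1, FrS F :=
  fun Z => ((t t1).1.1 - (t t0).1.1, (1 - frK F Z) • ((t t1).2 - (t t0).2))

theorem fr_rho (F : Type) [Field F] (t : (frData F).HT') : (frData F).rho t = frRho F t := by
  have key : ∀ (t : two.K 0 → (F × F) × (F × F)) (k : F),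
      (-1 : F) ^ 0 • (((t t1).1.1, (1 - k) • (t t1).2) : FrS F) +
      (-1 : F) ^ 1 • (((t t0).1.1, (1 - k) • (t t0).2) : FrS F) =
      ((t t1).1.1 - (t t0).1.1, (1 - k) • ((t t1).2 - (t t0).2)) := by
    intro t k
    rw [pow_zero, one_smul, pow_one, neg_one_smul, smul_sub]
    exact (sub_eq_add_neg _ _).symm
  funext Z
  exact (Fin.sum_univ_two _).trans (key t (frK F Z))

theorem frRho_sub (F : Type) [Field F] (t t' : two.K 0 → (F × F) × (F × F))
    (h : ∀ Y, (t' Y).1 = (t Y).1) : frRho F t - frRho F t' ∈ frW F := by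
  constructor
  · show (t t1).1.1 - (t t0).1.1 - ((t' t1).1.1 - (t' t0).1.1) = 0
    rw [h, h, sub_self]
  · show (((t t1).1.1 - (t t0).1.1, (1 - frK F s1) • ((t t1).2 - (t t0).2)) : FrS F) -
      ((t' t1).1.1 - (t' t0).1.1, (1 - frK F s1) • ((t' t1).2 - (t' t0).2)) = 0
    rw [h, h, frK_one, sub_self, zero_smul, zero_smul, sub_self]

theorem frRho_mem (F : Type) [Field F] (m : ∀ _ : two.K 1, FrS F) (hm : m ∈ frW F) :
    frRho F (fun Y => (0, frK F (show Fin 2 from Y) • (m s0).2)) = m := by
  have h0 : frK F (show Fin 2 from t0) = 0 := frK_zero F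
  have h1 : frK F (show Fin 2 from t1) = 1 := frK_one F
  funext Z
  show (((0 : F) - 0, (1 - frK F Z) • (frK F (show Fin 2 from t1) • (m s0).2 -
    frK F (show Fin 2 from t0) • (m s0).2)) : FrS F) = m Z
  rw [h0, h1, one_smul, zero_smul, sub_zero, sub_zero]
  rcases two_cases Z with rfl | rfl
  · rw [frK_zero, sub_zero, one_smul]
    exact Prod.ext hm.1.symm rfl
  · rw [frK_one, sub_self, zero_smul, hm.2]
    rfl

theorem frW_fst {F : Type} [Field F] {m : ∀ _ : two.K 1, FrS F} (hm : m ∈ frW F) (Z : two.K 1) :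
    (m Z).1 = 0 := by
  rcases two_cases Z with rfl | rfl
  · exact hm.1
  · exact congrArg Prod.fst hm.2

theorem fr_tate (F : Type) [Field F] [CharZero F] : (frData F).Tate (frW F) where
  span_class t := by
    refine ⟨fun Y => ((t Y).1, 0), fun Y => ?_, ?_⟩
    · have key : ∀ x : F × F, ((x, 0) : (F × F) × (F × F)) ∈ Submodule.span F
          (Set.range fun y : ℚ × ℚ => ((((y.1 : ℚ) : F), ((y.2 : ℚ) : F)), (0 : F × F))) := by
        rintro ⟨a, b⟩
        have h1 : (((a, b), 0) : (F × F) × (F × F)) =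
            a • (((1, 0), 0) : (F × F) × (F × F)) + b • (((0, 1), 0) : (F × F) × (F × F)) := by
          simp
        rw [h1]
        refine add_mem (Submodule.smul_mem _ _ (Submodule.subset_span ⟨((1, 0) : ℚ × ℚ), ?_⟩))
          (Submodule.smul_mem _ _ (Submodule.subset_span ⟨((0, 1) : ℚ × ℚ), ?_⟩))
        · simp
        · simp
      exact key (t Y).1
    · exact (congrArg (· ∈ frW F) (congrArg₂ (fun a b : ∀ _ : two.K 1, FrS F => a - b)
        (fr_rho F t) (fr_rho F fun Y => ((t Y).1, 0)))).mpr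
          (frRho_sub F t (fun Y => ((t Y).1, 0)) fun _ => rfl)
  range m hm := ⟨_, (fr_rho F _).trans (frRho_mem F m hm)⟩
  orth m hm Z x := by
    have key : ∀ (m : ∀ _ : two.K 1, FrS F) (_ : m ∈ frW F) (y : F),
        (m Z).1 * y + frForm F (frK F Z) (m Z).2 0 = 0 := by
      intro m hm y
      rw [frW_fst hm, zero_mul, frForm_zero, add_zero]
    exact key m hm _

theorem fr_nondeg (F : Type) [Field F] [CharZero F] (x : ∀ _ : two.K 1, FrS F)
    (h : ∀ y : ∀ _ : two.K 1, FrS F,
      ∑ Z, ((x Z).1 * (y Z).1 + frForm F (frK F Z) (x Z).2 (y Z).2) = 0) : x = 0 := by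
  classical
  funext Z
  have h1 : ∀ w : FrS F, (x Z).1 * w.1 + frForm F (frK F Z) (x Z).2 w.2 = 0 := by
    intro w
    have h2 := h (fun Z' => if Z' = Z then w else 0)
    rw [Finset.sum_eq_single Z] at h2
    · rw [if_pos rfl] at h2
      exact h2
    · intro Z' _ hZ
      rw [if_neg hZ]
      show (x Z').1 * 0 + frForm F (frK F Z') (x Z').2 0 = 0
      rw [mul_zero, frForm_zero, add_zero]
    · intro h3
      exact absurd (Finset.mem_univ _) h3
  refine Prod.ext ?_ (frForm_nondeg F _ (frK_ne F Z) _ fun v => ?_)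
  · have h2 := h1 (1, 0)
    rw [frForm_zero, add_zero, mul_one] at h2
    exact h2
  · have h2 := h1 (0, v)
    rw [mul_zero, zero_add] at h2
    exact h2

theorem frPhi_mem (F : Type) [Field F] (m : ∀ _ : two.K 1, FrS F) (hm : m ∈ frW F) :
    frPhi F m ∈ frW F := by
  refine ⟨hm.1, ?_⟩
  rw [frPhi_apply, hm.2]
  exact Prod.ext rfl (map_zero _)

theorem frPhi_isom (F : Type) [Field F] (x y : ∀ _ : two.K 1, FrS F) :
    ∑ Z, ((frPhi F x Z).1 * (frPhi F y Z).1 +
      frForm F (frK F Z) (frPhi F x Z).2 (frPhi F y Z).2) =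
    ∑ Z, ((x Z).1 * (y Z).1 + frForm F (frK F Z) (x Z).2 (y Z).2) := by
  refine Finset.sum_congr rfl fun Z _ => ?_
  rw [frPhi_apply, frPhi_apply]
  show _ + frForm F (frK F Z) (frRot F (frK F Z) (x Z).2) (frRot F (frK F Z) (y Z).2) = _
  rw [frForm_rot]

theorem fr_frob (F : Type) [Field F] [CharZero F] (hF : ∀ x : F, x ^ 2 ≠ -1) :
    (frData F).Frob (frW F) :=
  ⟨frPhi F, frPhi_isom F, fun x h => fr_nondeg F x h, frPhi_mem F, frW_balanced F hF⟩

/-- The second cohomology of the example, with its laws. -/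
def frCoh (F : Type) [Field F] [CharZero F] (hF : ∀ x : F, x ^ 2 ≠ -1) : Coh F twoRestr :=
  Coh.of (frData F) (fr_laws F) (fr_tate F) (Or.inr (fr_frob F hF))

/-- The transcendental part of the example is not zero. -/
theorem fr_ne_bot (F : Type) [Field F] [CharZero F] : frW F ≠ ⊥ := by
  intro h
  have h1 : (fun Z => (0, ((1 - frK F Z), 0)) : ∀ _ : two.K 1, FrS F) ∈ frW F := by
    refine ⟨rfl, ?_⟩
    show ((0 : F), ((1 - frK F s1), (0 : F))) = 0
    rw [frK_one, sub_self]
    rfl
  rw [h, Submodule.mem_bot] at h1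
  have h2 : (1 - frK F s0) = 0 := congrArg (fun x : FrS F => x.2.1) (congrFun h1 s0)
  rw [frK_zero, sub_zero] at h2
  exact one_ne_zero h2

/-- The row of the example (the middle case, `q = d = 3`) is good, with a nonzero transcendental
part, over `ℚ` and over `ℚ_l` for `l = 4 k + 3`. -/
theorem fr_good (F : Type) [Field F] [CharZero F] (hF : ∀ x : F, x ^ 2 ≠ -1) :
    (Ends.middle two_polarised (frCoh F hF)).toRow.Good twoNumbers 0 ∧
      (Ends.middle two_polarised (frCoh F hF)).toRow.LefInj ∧ (frCoh F hF).M ≠ ⊥ :=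
  ⟨Ends.toRow_good _ (Or.inr (fr_frob F hF)),
    (Ends.toRow_lefInj _).2 fun _ _ h => Ends.middle_lefInj two_polarised _ _ h, fr_ne_bot F⟩

/-- an element of the first term of `E_2` -/
def frZ (F : Type) [Field F] : ∀ _ : two.K 1, FrS F := fun Z => (1 - 2 * frK F Z, 0)

theorem frZ_orth (F : Type) [Field F] (t : two.K 0 → (F × F) × (F × F)) :
    ∑ Z, ((frZ F Z).1 * (frRho F t Z).1 +
      frForm F (frK F Z) (frZ F Z).2 (frRho F t Z).2) = 0 := by
  have h1 : ∀ Z : two.K 1, (frZ F Z).1 * (frRho F t Z).1 +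
      frForm F (frK F Z) (frZ F Z).2 (frRho F t Z).2 =
      (1 - 2 * frK F Z) * ((t t1).1.1 - (t t0).1.1) := by
    intro Z
    show (1 - 2 * frK F Z) * ((t t1).1.1 - (t t0).1.1) + frForm F (frK F Z) 0 _ = _
    rw [frForm_apply]
    simp
  rw [Finset.sum_congr rfl fun Z _ => h1 Z]
  have h2 : ∑ Z : two.K 1, (1 - 2 * frK F Z) * ((t t1).1.1 - (t t0).1.1) =
      (1 - 2 * frK F s0) * ((t t1).1.1 - (t t0).1.1) +
        (1 - 2 * frK F s1) * ((t t1).1.1 - (t t0).1.1) := Fin.sum_univ_two _
  rw [h2, frK_zero, frK_one]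
  ring

/-- The first term of `E_2` of the example is not zero. -/
theorem fr_ne (F : Type) [Field F] [CharZero F] (hF : ∀ x : F, x ^ 2 ≠ -1) :
    ∃ x ∈ (Ends.middle two_polarised (frCoh F hF)).topKer, x ∉ (frCoh F hF).topIm := by
  refine ⟨(frZ F, 0), ⟨⟨?_, ?_⟩, ?_⟩, ?_⟩
  · refine Ends.middle_lefInj two_polarised (frCoh F hF) _ fun t => ?_
    have h1 : (frData F).rho t = frRho F t := fr_rho F t
    have h2 := frZ_orth F t
    rw [← h1] at h2
    exact h2
  · show two.delta F 3 0 = 0
    exact map_zero _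
  · show (frCoh F hF).degOut _ = 0
    funext W
    exact (two_empty 0).elim W
  · rw [(frCoh F hF).topIm_eq]
    rintro ⟨c, hc⟩
    have h1 : c = 0 := by
      funext W
      exact (two_empty 0).elim W
    rw [h1, map_zero] at hc
    have h2 : (0 : F) = 1 - 2 * frK F s0 :=
      congrArg (fun x : FrS F => x.1) (congrFun (congrArg Prod.fst hc) s0)
    rw [frK_zero, mul_zero, sub_zero] at h2
    exact zero_ne_one h2

end Pool.Agent.MP_f8720a_ag
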