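import Pool.Agent.Lib.MP_f8720a_ag.ST.Defs

/-!
# The numbers as bilinear forms, the restrictions as linear maps
-/

namespace Pool.Agent.MP_f8720a_ag

namespace Classes

variable {S : Strata} {D : Numbers S} {j : ℕ} (C : Classes D j)

theorem num_smul (Z : S.K j) (r : ℚ) (x y : C.N Z) : C.num Z (r • x) y = r * C.num Z x y :=
  map_rat_smul (AddMonoidHom.mk' (fun x => C.num Z x y) fun a b => C.num_add Z a b y) r x

/-- The numbers `num` as a bilinear form. -/
def form (Z : S.K j) : C.N Z →ₗ[ℚ] C.N Z →ₗ[ℚ] ℚ :=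
  LinearMap.mk₂ ℚ (C.num Z) (C.num_add Z) (C.num_smul Z)
    (fun x y y' => by rw [C.num_comm Z x, C.num_add, C.num_comm Z y, C.num_comm Z y'])
    (fun r x y => by rw [C.num_comm Z x, C.num_smul, C.num_comm Z y, smul_eq_mul])

theorem symm (Z : S.K j) (x y : C.N Z) : C.form Z x y = C.form Z y x := C.num_comm Z x y

theorem nondeg (Z : S.K j) (x : C.N Z) (h : ∀ y, C.form Z x y = 0) : x = 0 :=
  C.num_nondeg Z x h

theorem ample_ample (Z : S.K j) : C.form Z (C.ample Z) (C.ample Z) = D.vol j Z :=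
  C.num_ample_ample Z

theorem ample_div (Z : S.K j) (p : S.Over j Z) :
    C.form Z (C.ample Z) (C.div Z p) = D.vol (j + 1) p.1.2 := C.num_ample_div Z p

theorem div_div (Z : S.K j) (p p' : S.Over j Z) :
    C.form Z (C.div Z p) (C.div Z p') = D.inter j Z p p' := C.num_div_div Z p p'

theorem index (Z : S.K j) (x : C.N Z) :
    D.vol j Z * C.form Z x x ≤ C.form Z (C.ample Z) x ^ 2 := C.num_index Z x

end Classes

namespace Restr

variable {S : Strata} {D : Numbers S} {j : ℕ} {C : Classes D j} {C' : Classes D (j + 1)}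
  (R : Restr C C')

/-- The restrictions as linear maps. -/
def res (i : Fin (j + 2)) (Z : S.K (j + 1)) : C.N (S.face j i Z) →ₗ[ℚ] C'.N Z :=
  (AddMonoidHom.mk' (R.restr i Z) (R.restr_add i Z)).toRatLinearMap

theorem res_ample (i : Fin (j + 2)) (Z : S.K (j + 1)) :
    R.res i Z (C.ample (S.face j i Z)) = C'.ample Z := R.restr_ample i Z

theorem proj (i : Fin (j + 2)) (Z : S.K (j + 1)) (t : C.N (S.face j i Z)) :
    C.form (S.face j i Z) (C.div (S.face j i Z) ⟨(i, Z), rfl⟩) t =
      C'.form Z (C'.ample Z) (R.res i Z t) := R.num_restr i Z t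

theorem deg_res (k : Fin (j + 3)) (W : S.K (j + 2)) (i : Fin (j + 2))
    (t : C.N (S.face j i (S.face (j + 1) k W))) :
    C'.form (S.face (j + 1) k W) (C'.div (S.face (j + 1) k W) ⟨(k, W), rfl⟩)
      (R.res i (S.face (j + 1) k W) t) = R.deg W (S.face j i (S.face (j + 1) k W)) t :=
  R.restr_deg k W i t

end Restr

/-- Cohomology with its laws, the form being nondegenerate on the transcendental classes. -/
structure Coh (F : Type) [Field F] {S : Strata} {D : Numbers S} {j : ℕ} {C : Classes D j}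
    {C' : Classes D (j + 1)} (R : Restr C C') extends CohData F C C' where
  M : Submodule F toCohData.HS'
  laws : toCohData.Laws R
  tate : toCohData.Tate M
  nondeg : ∀ m ∈ M, (∀ m' ∈ M, ∑ Z, toCohData.num Z (m Z) (m' Z) = 0) → m = 0

namespace Coh

variable {F : Type} [Field F] {S : Strata} {D : Numbers S} {j : ℕ}
  {C : Classes D j} {C' : Classes D (j + 1)} {R : Restr C C'} (X : Coh F R)

/-- The numbers `num` as a bilinear form. -/
def cup (Z : S.K (j + 1)) : X.HS Z →ₗ[F] X.HS Z →ₗ[F] F :=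
  LinearMap.mk₂ F (X.num Z) (X.laws.num_add Z) (X.laws.num_smul Z)
    (fun x y y' => by
      rw [X.laws.num_comm Z x, X.laws.num_add, X.laws.num_comm Z y, X.laws.num_comm Z y'])
    (fun r x y => by
      rw [X.laws.num_comm Z x, X.laws.num_smul, X.laws.num_comm Z y, smul_eq_mul])

/-- The cycle class as a homomorphism. -/
def clT (Y : S.K j) : C.N Y →+ X.HT Y := AddMonoidHom.mk' (X.classT Y) (X.laws.classT_add Y)

/-- The cycle class as a homomorphism. -/
def clS (Z : S.K (j + 1)) : C'.N Z →+ X.HS Z :=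
  AddMonoidHom.mk' (X.classS Z) (X.laws.classS_add Z)

/-- The restrictions as linear maps. -/
def res (i : Fin (j + 2)) (Z : S.K (j + 1)) : X.HT (S.face j i Z) →ₗ[F] X.HS Z where
  toFun := X.restr i Z
  map_add' := X.laws.restr_add i Z
  map_smul' := X.laws.restr_smul i Z

theorem cup_symm (Z : S.K (j + 1)) (x y : X.HS Z) : X.cup Z x y = X.cup Z y x :=
  X.laws.num_comm Z x y

theorem cup_cl (Z : S.K (j + 1)) (x y : C'.N Z) :
    X.cup Z (X.clS Z x) (X.clS Z y) = (C'.form Z x y : F) := X.laws.num_class Z x y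

theorem res_cl (i : Fin (j + 2)) (Z : S.K (j + 1)) (t : C.N (S.face j i Z)) :
    X.res i Z (X.clT (S.face j i Z) t) = X.clS Z (R.res i Z t) := X.laws.restr_class i Z t

theorem clS_rat (Z : S.K (j + 1)) (q : ℚ) (x : C'.N Z) :
    X.clS Z (q • x) = (q : F) • X.clS Z x := by
  have := map_ratCast_smul (X.clS Z) ℚ F q x
  simpa using this

/-- The restriction as a linear map. -/
def rho : X.HT' →ₗ[F] X.HS' where
  toFun t Z := ∑ i : Fin (j + 2), (-1 : F) ^ (i : ℕ) • X.restr i Z (t (S.face j i Z))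
  map_add' t t' := by
    funext Z
    simp only [Pi.add_apply, X.laws.restr_add, smul_add, Finset.sum_add_distrib]
  map_smul' a t := by
    funext Z
    simp only [Pi.smul_apply, X.laws.restr_smul, RingHom.id_apply, Finset.smul_sum]
    exact Finset.sum_congr rfl fun i _ => smul_comm _ _ _

/-- The Gysin map as a linear map. -/
noncomputable def gys : (S.K (j + 2) → F) →ₗ[F] X.HS' where
  toFun c Z := ∑ p : S.Over (j + 1) Z, S.gysin F (j + 1) c Z p • X.classS Z (C'.div Z p)
  map_add' c c' := by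
    funext Z
    simp only [Pi.add_apply, Strata.gysin, mul_add, add_smul, Finset.sum_add_distrib]
  map_smul' a c := by
    funext Z
    simp only [Pi.smul_apply, Strata.gysin, RingHom.id_apply, Finset.smul_sum, smul_smul,
      smul_eq_mul]
    exact Finset.sum_congr rfl fun p _ => by rw [mul_left_comm]

/-- The incoming differential from the cohomology of degree zero of `K (j + 2)`. -/
noncomputable def inn : (S.K (j + 2) → F) →ₗ[F] X.V := X.gys.prod (S.delta F (j + 2))

/-- The incoming differential from the second cohomology of `K j`. -/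
def innT : X.HT' →ₗ[F] X.V := X.rho.prod 0

theorem topIm_eq : X.topIm = LinearMap.range X.inn := by
  have h : Set.range (fun c : S.K (j + 2) → F => (X.toCohData.gys c, S.delta F (j + 2) c)) =
      (LinearMap.range X.inn : Set X.V) := rfl
  rw [CohData.topIm, h, Submodule.span_eq]

theorem botIm_eq : X.botIm = LinearMap.range X.innT ⊔ LinearMap.range X.inn := by
  have h : Set.range (fun t : X.HT' => ((X.toCohData.rho t, 0) : X.V)) =
      (LinearMap.range X.innT : Set X.V) := rfl
  rw [CohData.botIm, h, Submodule.span_eq, X.topIm_eq]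

theorem rho_apply (t : ∀ Y, X.HT Y) (Z : S.K (j + 1)) :
    X.rho t Z = ∑ i : Fin (j + 2), ((-1 : F) ^ (i : ℕ)) • X.res i Z (t (S.face j i Z)) := rfl

theorem gys_apply (c : S.K (j + 2) → F) (Z : S.K (j + 1)) :
    X.gys c Z = ∑ p : S.Over (j + 1) Z,
      S.gysin F (j + 1) c Z p • X.clS Z (C'.div Z p) := rfl

/-- The degrees `degAt` as a linear map. -/
noncomputable def degOut : X.V →ₗ[F] (S.K (j + 2) → F) :=
  LinearMap.pi fun W =>
    (∑ k : Fin (j + 3), ((-1 : F) ^ (k : ℕ)) •
      ((X.cup (S.face (j + 1) k W)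
        (X.clS (S.face (j + 1) k W) (C'.div (S.face (j + 1) k W) ⟨(k, W), rfl⟩))).comp
          ((LinearMap.proj (S.face (j + 1) k W)).comp (LinearMap.fst F _ _)))) +
    ∑ q : S.Over (j + 2) W, ((-1 : F) ^ (q.1.1 : ℕ) * (D.vol (j + 3) q.1.2 : F)) •
      ((LinearMap.proj q.1.2).comp (LinearMap.snd F _ _))

theorem degOut_apply (x : X.V) (W : S.K (j + 2)) :
    X.degOut x W = ∑ k : Fin (j + 3), (-1 : F) ^ (k : ℕ) *
      X.cup (S.face (j + 1) k W)
        (X.clS (S.face (j + 1) k W) (C'.div (S.face (j + 1) k W) ⟨(k, W), rfl⟩))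
        (x.1 (S.face (j + 1) k W)) +
    ∑ q : S.Over (j + 2) W, S.gysin F (j + 2) x.2 W q * (D.vol (j + 3) q.1.2 : F) := by
  simp only [degOut, LinearMap.pi_apply, LinearMap.add_apply, LinearMap.sum_apply,
    LinearMap.smul_apply, LinearMap.comp_apply, LinearMap.proj_apply, LinearMap.fst_apply,
    LinearMap.snd_apply, smul_eq_mul, Strata.gysin]
  congr 1
  refine Finset.sum_congr rfl fun q _ => ?_
  ring

theorem degAt_eq (s : ∀ Z, X.HS Z) (p : S.K (j + 3) → F) (W : S.K (j + 2)) :
    X.degAt s p W = X.degOut (s, p) W := (X.degOut_apply (s, p) W).symm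

theorem inn_apply (c : S.K (j + 2) → F) : X.inn c = (X.gys c, S.delta F (j + 2) c) := rfl

theorem innT_apply (t : ∀ Y, X.HT Y) : X.innT t = (X.rho t, 0) := rfl

end Coh

end Pool.Agent.MP_f8720a_ag
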