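import Pool.Agent.Lib.MP_f8720a_ag.ST.Lin

/-!
# The step `e = d - 2`, rational coefficients
-/

namespace Pool.Agent.MP_f8720a_ag

/-- A symmetric form with the Hodge index inequality: a class of degree zero and square zero is
orthogonal to everything. -/
theorem hodge_null {N : Type} [AddCommGroup N] [Module ℚ N] (f : N →ₗ[ℚ] N →ₗ[ℚ] ℚ) (A : N)
    (v : ℚ) (hv : 0 < v) (hA : f A A = v) (hs : ∀ x y, f x y = f y x)
    (hi : ∀ x, v * f x x ≤ f A x ^ 2) (x : N) (hx : f A x = 0) (hxx : f x x = 0) (y : N) :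
    f x y = 0 := by
  -- subtract a multiple of `A` from `y`
  set y' : N := y - (f A y / v) • A with hy'
  have h1 : f A y' = 0 := by
    rw [hy', map_sub, map_smul, hA, smul_eq_mul]
    field_simp
    ring
  have h2 : f x y' = f x y := by
    rw [hy', map_sub, map_smul, hs x A, hx, smul_zero, sub_zero]
  rw [← h2]
  by_contra hne
  have h3 : ∀ s : ℚ, v * (f y' y' + 2 * s * f x y') ≤ 0 := by
    intro s
    have h4 := hi (y' + s • x)
    have h5 : f A (y' + s • x) = 0 := by
      rw [map_add, map_smul, h1, hx, smul_zero, add_zero]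
    have h6 : f (y' + s • x) (y' + s • x) = f y' y' + 2 * s * f x y' := by
      simp only [map_add, map_smul, LinearMap.add_apply, LinearMap.smul_apply, smul_eq_mul, hxx,
        hs y' x]
      ring
    rw [h5, h6] at h4
    simpa using h4
  have h7 := h3 ((1 - f y' y') / (2 * f x y'))
  have h8 : f y' y' + 2 * ((1 - f y' y') / (2 * f x y')) * f x y' = 1 := by
    field_simp
    ring
  rw [h8, mul_one] at h7
  exact absurd h7 (not_le.2 hv)

namespace Numbers

variable {S : Strata} (D : Numbers S)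

/-- A function on the surfaces that is orthogonal to all cocycles is the degree of the Gysin
image of a cocycle on the curves. -/
theorem exists_curve (hD : D.IsPolarised) (j : ℕ) (w : S.K (j + 1) → ℚ)
    (hw : ∀ a : S.K (j + 1) → ℚ, S.delta ℚ (j + 1) a = 0 → ∑ Z, a Z * w Z = 0) :
    ∃ c : S.K (j + 2) → ℚ, S.delta ℚ (j + 2) c = 0 ∧
      ∀ Z, D.dg (j + 1) Z (S.gysin ℚ (j + 1) c Z) = w Z := by
  classical
  let g : (S.K (j + 2) → ℚ) →ₗ[ℚ] (S.K (j + 1) → ℚ) :=
    { toFun := fun c Z => D.dg (j + 1) Z (S.gysin ℚ (j + 1) c Z)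
      map_add' := by
        intro c c'
        funext Z
        simp only [dg, Strata.gysin, Pi.add_apply, mul_add, add_mul, Finset.sum_add_distrib]
      map_smul' := by
        intro r c
        funext Z
        simp only [dg, Strata.gysin, Pi.smul_apply, smul_eq_mul, RingHom.id_apply, Finset.mul_sum]
        exact Finset.sum_congr rfl fun p _ => by ring }
  let Φ : (S.K (j + 2) → ℚ) →ₗ[ℚ] (S.K (j + 1) → ℚ) × (S.K (j + 3) → ℚ) :=
    g.prod (S.delta ℚ (j + 2))
  by_cases hmem : (w, (0 : S.K (j + 3) → ℚ)) ∈ LinearMap.range Φ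
  · obtain ⟨c, hc⟩ := hmem
    refine ⟨c, congrArg Prod.snd hc, fun Z => ?_⟩
    exact congrFun (congrArg Prod.fst hc) Z
  · exfalso
    obtain ⟨f, hf, hle⟩ := Submodule.exists_le_ker_of_notMem hmem
    apply hf
    -- the two components of `f`
    set a : S.K (j + 1) → ℚ := fun Z => f (Pi.single Z 1, 0) with ha
    set p : S.K (j + 3) → ℚ := fun P => f (0, Pi.single P 1) / D.vol (j + 3) P with hp
    have hfv : ∀ (u : S.K (j + 1) → ℚ) (v : S.K (j + 3) → ℚ),
        f (u, v) = ∑ Z, a Z * u Z + ∑ P, D.vol (j + 3) P * p P * v P := by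
      intro u v
      have h1 : f (u, v) = f (u, 0) + f (0, v) := by
        rw [← map_add, Prod.mk_add_mk, add_zero, zero_add]
      have h2 : f (u, 0) = ∑ Z, a Z * u Z := by
        have h3 := LinearMap.pi_apply_eq_sum_univ
          (f.comp (LinearMap.inl ℚ (S.K (j + 1) → ℚ) (S.K (j + 3) → ℚ))) u
        rw [LinearMap.comp_apply, LinearMap.inl_apply] at h3
        rw [h3]
        refine Finset.sum_congr rfl fun Z _ => ?_
        have h6 : (fun Z' => if Z = Z' then (1 : ℚ) else 0) = Pi.single Z 1 := by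
          funext Z'
          by_cases hZ : Z = Z'
          · subst hZ
            simp
          · rw [if_neg hZ, Pi.single_eq_of_ne (fun e => hZ e.symm)]
        rw [LinearMap.comp_apply, LinearMap.inl_apply, smul_eq_mul, mul_comm, h6]
      have h4 : f (0, v) = ∑ P, D.vol (j + 3) P * p P * v P := by
        have h3 := LinearMap.pi_apply_eq_sum_univ
          (f.comp (LinearMap.inr ℚ (S.K (j + 1) → ℚ) (S.K (j + 3) → ℚ))) v
        rw [LinearMap.comp_apply, LinearMap.inr_apply] at h3
        rw [h3]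
        refine Finset.sum_congr rfl fun P _ => ?_
        have hvp := (hD.vol_pos (j + 3) P).ne'
        have h5 : D.vol (j + 3) P * p P = f (0, Pi.single P 1) := by
          simp only [hp]
          field_simp
        have h6 : (fun P' => if P = P' then (1 : ℚ) else 0) = Pi.single P 1 := by
          funext P'
          by_cases hP : P = P'
          · subst hP
            simp
          · rw [if_neg hP, Pi.single_eq_of_ne (fun e => hP e.symm)]
        rw [LinearMap.comp_apply, LinearMap.inr_apply, smul_eq_mul, mul_comm, h5, h6]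
      rw [h1, h2, h4]
    -- the relation
    have hrel : ∀ W, D.vol (j + 2) W * S.delta ℚ (j + 1) a W +
        D.dg (j + 2) W (S.gysin ℚ (j + 2) p W) = 0 := by
      intro W
      have h1 : f (Φ (Pi.single W 1)) = 0 := hle ⟨_, rfl⟩
      have h2 : f (Φ (Pi.single W 1)) =
          ∑ Z, a Z * D.dg (j + 1) Z (S.gysin ℚ (j + 1) (Pi.single W 1) Z) +
            ∑ P, D.vol (j + 3) P * p P * S.delta ℚ (j + 2) (Pi.single W 1) P := hfv _ _
      rw [h2, ← D.adj (j + 1) (Pi.single W 1) a, D.adj (j + 2) p (Pi.single W 1)] at h1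
      rw [Finset.sum_eq_single W, Finset.sum_eq_single W] at h1
      · simpa using h1
      · intro W' _ hW'
        rw [Pi.single_eq_of_ne hW', zero_mul]
      · intro h
        exact absurd (Finset.mem_univ _) h
      · intro W' _ hW'
        rw [Pi.single_eq_of_ne hW', mul_zero, zero_mul]
      · intro h
        exact absurd (Finset.mem_univ _) h
    have hsum : ∑ W, D.vol (j + 2) W * S.delta ℚ (j + 1) a W * S.delta ℚ (j + 1) a W = 0 := by
      have h1 : ∑ W, S.delta ℚ (j + 1) a W * D.dg (j + 2) W (S.gysin ℚ (j + 2) p W) = 0 := by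
        rw [← D.adj (j + 2) p (S.delta ℚ (j + 1) a)]
        refine Finset.sum_eq_zero fun P _ => ?_
        rw [S.delta_delta (j + 1) a]
        simp
      have h2 : ∑ W, (D.vol (j + 2) W * S.delta ℚ (j + 1) a W * S.delta ℚ (j + 1) a W +
          S.delta ℚ (j + 1) a W * D.dg (j + 2) W (S.gysin ℚ (j + 2) p W)) = 0 := by
        refine Finset.sum_eq_zero fun W _ => ?_
        linear_combination S.delta ℚ (j + 1) a W * hrel W
      rw [Finset.sum_add_distrib, h1, add_zero] at h2
      exact h2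
    have hda : S.delta ℚ (j + 1) a = 0 := D.ip_def hD (j + 1) _ hsum
    rw [hfv w 0, hw a hda]
    simp

end Numbers

namespace Restr

variable {S : Strata} {D : Numbers S} {j : ℕ} {C : Classes D j} {C' : Classes D (j + 1)}
  (R : Restr C C')

/-- The restriction of rational classes. -/
def rho (t : ∀ Y, C.N Y) (Z : S.K (j + 1)) : C'.N Z :=
  ∑ i : Fin (j + 2), ((-1 : ℚ) ^ (i : ℕ)) • R.res i Z (t (S.face j i Z))

/-- The Gysin image of a rational cochain on the curves. -/
noncomputable def gys (_R : Restr C C') (c : S.K (j + 2) → ℚ) (Z : S.K (j + 1)) : C'.N Z :=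
  ∑ p : S.Over (j + 1) Z, S.gysin ℚ (j + 1) c Z p • C'.div Z p

/-- The Gysin image on a threefold of a cochain on the surfaces. -/
noncomputable def gysT (_R : Restr C C') (a : S.K (j + 1) → ℚ) (Y : S.K j) : C.N Y :=
  ∑ p : S.Over j Y, S.gysin ℚ j a Y p • C.div Y p

theorem ample_gys (c : S.K (j + 2) → ℚ) (Z : S.K (j + 1)) :
    C'.form Z (C'.ample Z) (R.gys c Z) = D.dg (j + 1) Z (S.gysin ℚ (j + 1) c Z) := by
  rw [gys, map_sum, Numbers.dg]
  refine Finset.sum_congr rfl fun p _ => ?_
  rw [map_smul, C'.ample_div, smul_eq_mul]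

theorem gys_gys (c : S.K (j + 2) → ℚ) (Z : S.K (j + 1)) :
    C'.form Z (R.gys c Z) (R.gys c Z) = D.sq (j + 1) Z (S.gysin ℚ (j + 1) c Z) := by
  rw [gys, Numbers.sq]
  simp only [map_sum, LinearMap.sum_apply, map_smul, LinearMap.smul_apply, smul_eq_mul,
    C'.div_div]
  refine Finset.sum_congr rfl fun p _ => ?_
  rw [Finset.mul_sum]
  refine Finset.sum_congr rfl fun p' _ => ?_
  rw [D.inter_symm (j + 1) Z p' p]
  ring

/-- The degrees on the curves of the restrictions of restrictions add up to zero. -/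
theorem rho_gys (t : ∀ Y, C.N Y) (c : S.K (j + 2) → ℚ) :
    ∑ Z, C'.form Z (R.gys c Z) (R.rho t Z) = 0 := by
  have h1 : ∑ Z, C'.form Z (R.gys c Z) (R.rho t Z) =
      ∑ Z, ∑ p : S.Over (j + 1) Z, S.gysin ℚ (j + 1) c Z p *
        C'.form Z (C'.div Z p) (R.rho t Z) := by
    refine Finset.sum_congr rfl fun Z _ => ?_
    rw [gys, map_sum, LinearMap.sum_apply]
    refine Finset.sum_congr rfl fun p _ => ?_
    rw [map_smul, LinearMap.smul_apply, smul_eq_mul]
  rw [h1, S.sum_over (j + 1) fun Z p => S.gysin ℚ (j + 1) c Z p *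
    C'.form Z (C'.div Z p) (R.rho t Z)]
  refine Finset.sum_eq_zero fun W _ => ?_
  have h2 : ∀ k : Fin (j + 3), C'.form (S.face (j + 1) k W)
      (C'.div (S.face (j + 1) k W) ⟨(k, W), rfl⟩) (R.rho t (S.face (j + 1) k W)) =
      S.delta ℚ j (fun Y => R.deg W Y (t Y)) (S.face (j + 1) k W) := by
    intro k
    rw [rho, map_sum]
    refine Finset.sum_congr rfl fun i _ => ?_
    rw [map_smul, R.deg_res, smul_eq_mul]
  have h3 : ∑ k : Fin (j + 3), (-1 : ℚ) ^ (k : ℕ) *
      S.delta ℚ j (fun Y => R.deg W Y (t Y)) (S.face (j + 1) k W) = 0 :=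
    congrFun (S.delta_delta j fun Y => R.deg W Y (t Y)) W
  calc ∑ k : Fin (j + 3), S.gysin ℚ (j + 1) c (S.face (j + 1) k W) ⟨(k, W), rfl⟩ *
        C'.form (S.face (j + 1) k W) (C'.div (S.face (j + 1) k W) ⟨(k, W), rfl⟩)
          (R.rho t (S.face (j + 1) k W))
      = ∑ k : Fin (j + 3), c W * ((-1 : ℚ) ^ (k : ℕ) *
          S.delta ℚ j (fun Y => R.deg W Y (t Y)) (S.face (j + 1) k W)) := by
        refine Finset.sum_congr rfl fun k _ => ?_
        rw [h2 k]
        simp only [Strata.gysin]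
        ring
    _ = 0 := by rw [← Finset.mul_sum, h3, mul_zero]

/-- The restriction of a multiple of the ample classes. -/
theorem rho_ample (b : S.K j → ℚ) (Z : S.K (j + 1)) :
    R.rho (fun Y => b Y • C.ample Y) Z = S.delta ℚ j b Z • C'.ample Z := by
  rw [rho]
  have h1 : S.delta ℚ j b Z = ∑ i : Fin (j + 2), (-1 : ℚ) ^ (i : ℕ) * b (S.face j i Z) := rfl
  rw [h1, Finset.sum_smul]
  refine Finset.sum_congr rfl fun i _ => ?_
  rw [map_smul, R.res_ample, smul_smul]

/-- The class of a numerically trivial divisor of strata on a threefold is zero. -/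
theorem gysT_null (hD : D.IsPolarised) (a : S.K (j + 1) → ℚ) (Y : S.K j)
    (ha : D.Triv ℚ j Y (S.gysin ℚ j a Y)) (y : C.N Y) :
    C.form Y (R.gysT a Y) y = 0 := by
  obtain ⟨h1, h2⟩ := ha
  refine hodge_null (C.form Y) (C.ample Y) (D.vol j Y) (hD.vol_pos j Y) (C.ample_ample Y)
    (C.symm Y) (C.index Y) _ ?_ ?_ y
  · rw [gysT, map_sum, ← h1]
    refine Finset.sum_congr rfl fun p _ => ?_
    rw [map_smul, C.ample_div, smul_eq_mul]
    simp
  · have h3 : ∀ p' : S.Over j Y, C.form Y (R.gysT a Y) (C.div Y p') = 0 := by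
      intro p'
      rw [gysT, map_sum, LinearMap.sum_apply, ← h2 p']
      refine Finset.sum_congr rfl fun p _ => ?_
      rw [map_smul, LinearMap.smul_apply, C.div_div, smul_eq_mul]
      simp
    conv_lhs => rw [show C.form Y (R.gysT a Y) (R.gysT a Y) =
      C.form Y (R.gysT a Y) (∑ p : S.Over j Y, S.gysin ℚ j a Y p • C.div Y p) from rfl]
    rw [map_sum]
    refine Finset.sum_eq_zero fun p' _ => ?_
    rw [map_smul, h3 p', smul_zero]

/-- The degrees of the restrictions, paired with a harmonic cochain. -/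
theorem harm_rho (hD : D.IsPolarised) (a : S.K (j + 1) → ℚ) (ha : D.Harm ℚ j a)
    (t : ∀ Y, C.N Y) : ∑ Z, a Z * C'.form Z (C'.ample Z) (R.rho t Z) = 0 := by
  have h1 : ∑ Z, a Z * C'.form Z (C'.ample Z) (R.rho t Z) =
      ∑ Z, ∑ i : Fin (j + 2), S.gysin ℚ j a (S.face j i Z) ⟨(i, Z), rfl⟩ *
        C.form (S.face j i Z) (C.div (S.face j i Z) ⟨(i, Z), rfl⟩) (t (S.face j i Z)) := by
    refine Finset.sum_congr rfl fun Z _ => ?_
    rw [rho, map_sum, Finset.mul_sum]
    refine Finset.sum_congr rfl fun i _ => ?_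
    rw [map_smul, R.proj, smul_eq_mul]
    simp only [Strata.gysin]
    ring
  rw [h1, ← S.sum_over j fun Y p => S.gysin ℚ j a Y p * C.form Y (C.div Y p) (t Y)]
  refine Finset.sum_eq_zero fun Y _ => ?_
  rw [← R.gysT_null hD a Y (ha.2 Y) (t Y), gysT, map_sum, LinearMap.sum_apply]
  refine Finset.sum_congr rfl fun p _ => ?_
  rw [map_smul, LinearMap.smul_apply, smul_eq_mul]

/-- **The rational statement.** A restriction `rho t` which is orthogonal to all restrictions is
the Gysin image of a cocycle on the curves. -/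
theorem main (hD : D.IsPolarised) (t : ∀ Y, C.N Y)
    (ht : ∀ t' : ∀ Y, C.N Y, ∑ Z, C'.form Z (R.rho t Z) (R.rho t' Z) = 0) :
    ∃ c : S.K (j + 2) → ℚ, S.delta ℚ (j + 2) c = 0 ∧ ∀ Z, R.rho t Z = R.gys c Z := by
  have hw : ∀ a : S.K (j + 1) → ℚ, S.delta ℚ (j + 1) a = 0 →
      ∑ Z, a Z * C'.form Z (C'.ample Z) (R.rho t Z) = 0 := by
    intro a ha
    obtain ⟨h, hh, b, hb⟩ := (D.bij_harm (F := ℚ) hD j).2.2 a ha
    have h1 : ∑ Z, h Z * C'.form Z (C'.ample Z) (R.rho t Z) = 0 := R.harm_rho hD h hh t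
    have h2 : ∑ Z, S.delta ℚ j b Z * C'.form Z (C'.ample Z) (R.rho t Z) = 0 := by
      rw [← ht fun Y => b Y • C.ample Y]
      refine Finset.sum_congr rfl fun Z _ => ?_
      rw [R.rho_ample, map_smul, smul_eq_mul, C'.symm]
    have h3 : ∀ Z, a Z = h Z + S.delta ℚ j b Z := by
      intro Z
      have := congrFun hb Z
      rw [Pi.sub_apply] at this
      linarith
    calc ∑ Z, a Z * C'.form Z (C'.ample Z) (R.rho t Z)
        = ∑ Z, (h Z * C'.form Z (C'.ample Z) (R.rho t Z) +
            S.delta ℚ j b Z * C'.form Z (C'.ample Z) (R.rho t Z)) := by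
          refine Finset.sum_congr rfl fun Z _ => ?_
          rw [h3 Z]
          ring
      _ = 0 := by rw [Finset.sum_add_distrib, h1, h2, add_zero]
  obtain ⟨c, hc, hdeg⟩ := D.exists_curve hD j _ hw
  refine ⟨c, hc, ?_⟩
  -- the differences are primitive with total square zero
  have hprim : ∀ Z, C'.form Z (C'.ample Z) (R.rho t Z - R.gys c Z) = 0 := by
    intro Z
    rw [map_sub, R.ample_gys, hdeg Z, sub_self]
  have hsq : ∑ Z, C'.form Z (R.rho t Z - R.gys c Z) (R.rho t Z - R.gys c Z) = 0 := by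
    have h1 : ∀ Z, C'.form Z (R.rho t Z - R.gys c Z) (R.rho t Z - R.gys c Z) =
        C'.form Z (R.rho t Z) (R.rho t Z) - 2 * C'.form Z (R.gys c Z) (R.rho t Z) +
          D.sq (j + 1) Z (S.gysin ℚ (j + 1) c Z) := by
      intro Z
      rw [← R.gys_gys]
      simp only [map_sub, LinearMap.sub_apply]
      rw [C'.symm Z (R.rho t Z) (R.gys c Z)]
      ring
    rw [Finset.sum_congr rfl fun Z _ => h1 Z, Finset.sum_add_distrib, Finset.sum_sub_distrib,
      ht t, ← Finset.mul_sum, R.rho_gys, D.key hD, hc]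
    simp
  have hle : ∀ Z, C'.form Z (R.rho t Z - R.gys c Z) (R.rho t Z - R.gys c Z) ≤ 0 := by
    intro Z
    have h1 := C'.index Z (R.rho t Z - R.gys c Z)
    rw [hprim Z, zero_pow two_ne_zero] at h1
    by_contra hcon
    have := mul_pos (hD.vol_pos (j + 1) Z) (not_le.1 hcon)
    linarith
  have heq := (Finset.sum_eq_zero_iff_of_nonpos fun Z _ => hle Z).1 hsq
  intro Z
  rw [← sub_eq_zero]
  refine C'.nondeg Z _ fun y => ?_
  exact hodge_null (C'.form Z) (C'.ample Z) (D.vol (j + 1) Z) (hD.vol_pos _ Z)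
    (C'.ample_ample Z) (C'.symm Z) (C'.index Z) _ (hprim Z) (heq Z (Finset.mem_univ Z)) y

end Restr

end Pool.Agent.MP_f8720a_ag
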