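import Pool.Agent.Lib.MP_f8720a_ag.ST.Row

/-!
# Rosati data give a good row

The terms of the step `e = q - 1` of `RosatiData`, in the case `q = d` (`LefInj` holds): `A = V`,
`B = 0`.
-/

namespace Pool.Agent.MP_f8720a_ag

namespace RosatiData

variable {F E U V W T : Type} [Field F] [Ring E] [Algebra ℚ E] [StarRing E]
  [AddCommGroup U] [Module F U] [AddCommGroup V] [Module F V] [AddCommGroup W] [Module F W]
  [AddCommGroup T] [Module F T] (C : RosatiData F E U V W T)

theorem anti (v v' : V) : C.BV v' v = -C.BV v v' := by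
  have h1 := C.altV (v + v')
  simp only [map_add, LinearMap.add_apply, C.altV, zero_add, add_zero] at h1
  exact eq_neg_of_add_eq_zero_left h1

/-- The classes orthogonal to the image of `δ`. -/
def perp : Submodule F V where
  carrier := {v | ∀ u, C.BV v (C.δ u) = 0}
  add_mem' {v w} hv hw u := by
    rw [map_add, LinearMap.add_apply, hv u, hw u, add_zero]
  zero_mem' u := by
    rw [map_zero, LinearMap.zero_apply]
  smul_mem' a v hv u := by
    rw [map_smul, LinearMap.smul_apply, hv u, smul_zero]

/-- The row. -/
def toRow : Row F where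
  A := V
  B := Fin 0 → F
  finA := C.finV
  kerT := C.perp
  imT := LinearMap.range C.δ
  ker := (LinearMap.ker C.r).prod ⊤
  im := ⊥
  im_le := bot_le
  im_le' := bot_le
  imT_le := by
    rintro ⟨a, b⟩ ⟨⟨u, hu⟩, _⟩
    have hu' : C.δ u = a := hu
    refine ⟨?_, trivial⟩
    show C.r a = 0
    rw [← hu', C.r_δ]
  form v v' := C.BV v v'
  form_add v v' w := by rw [map_add, LinearMap.add_apply]
  form_smul a v w := by rw [map_smul, LinearMap.smul_apply, smul_eq_mul]
  sgn := -1
  comm v v' := by rw [C.anti, neg_one_mul]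
  orth := by
    rintro v hv _ ⟨u, rfl⟩
    exact hv u

theorem toRow_lefInj : C.toRow.LefInj := by
  intro z _ h u
  exact h _ ⟨u, rfl⟩

theorem toRow_good {S : Strata} (D : Numbers S) (m : ℕ) : C.toRow.Good D m := by
  refine ⟨LinearMap.range C.δ, ⊥, (sup_bot_eq _).symm, ?_, Or.inr (Or.inl ⟨?_⟩), Or.inl rfl⟩
  · intro x _ y hy
    have hy' : y = 0 := hy
    rw [hy']
    exact map_zero (C.BV x)
  · exact
      { E := E, U := U, V := V, W := W, T := T
        rosati := C
        cls := LinearMap.id
        form_cls := fun _ _ => rfl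
        alg_eq := (Submodule.map_id _).symm }

end RosatiData

end Pool.Agent.MP_f8720a_ag
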