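import Pool.Agent.Lib.MP_f8720a_ag.Curve
import Pool.Agent.Lib.MP_f8720a_ag.ST.Main
import Pool.Agent.Lib.MP_f8720a_ag.ST.Frob

/-!
# The lower steps

The step `e = m + 1`, `q = e + i`, `i ≥ 2`, for arbitrary cohomology of degree `i`. `T`, `Z`, `C`, `W`
are the strata of `K m`, `K (m + 1)`, `K (m + 2)`, `K (m + 3)`.
-/

namespace Pool.Agent.MP_f8720a_ag

/-- The terms `E_1^{-e,q+e}` and `E_1^{e,q-e}` are both `A × B`, `A = ⊕ H^i(Z)`,
`B = ⊕ H^(i-2)(W) ⊕ ⋯`. `kerT` is the kernel of the Gysin map `A → ⊕ H^(i+2)(T)` (it occurs only at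
`E_1^{-e,q+e}`), `imT` the image of the restriction `⊕ H^i(T) → A` (it occurs only at
`E_1^{e,q-e}`); `ker` is the kernel of the other components of the outgoing differential, `im` the
image of the other components of the incoming one. The inclusions hold as the square of the
differential is zero. `form x y` is the product `x . y` and a power of the ample class; `orth` is the
projection formula. -/
structure Row (F : Type) [Field F] where
  A : Type
  B : Type
  [grpA : AddCommGroup A]
  [modA : Module F A]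
  [finA : FiniteDimensional F A]
  [grpB : AddCommGroup B]
  [modB : Module F B]
  kerT : Submodule F A
  imT : Submodule F A
  ker : Submodule F (A × B)
  im : Submodule F (A × B)
  im_le : im ≤ ker
  im_le' : im ≤ kerT.prod ⊤
  imT_le : imT.prod ⊥ ≤ ker
  form : A → A → F
  form_add : ∀ x x' y, form (x + x') y = form x y + form x' y
  form_smul : ∀ (a : F) x y, form (a • x) y = a * form x y
  sgn : F
  comm : ∀ x y, form y x = sgn * form x y
  orth : ∀ x ∈ kerT, ∀ y ∈ imT, form x y = 0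

attribute [instance] Row.grpA Row.modA Row.finA Row.grpB Row.modB

namespace Row

variable {F : Type} [Field F] (O : Row F)

/-- `E_2^{-e,q+e}` is `topKer` modulo `im`. -/
def topKer : Submodule F (O.A × O.B) := O.kerT.prod ⊤ ⊓ O.ker

/-- `E_2^{e,q-e}` is `ker` modulo `botIm`. -/
def botIm : Submodule F (O.A × O.B) := O.imT.prod ⊥ ⊔ O.im

/-- If the Gysin image in `⊕ H^(i+2)(T)` of an element of `ker` is orthogonal to `⊕ H^i(T)`, it is
zero. This is Poincare duality if `q = d`; if `q < d` it holds if `b_(i+2)(T) = b_i(T)`. -/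
def LefInj : Prop := ∀ z ∈ O.ker, (∀ y ∈ O.imT, O.form z.1 y = 0) → z.1 ∈ O.kerT

section

variable {S : Strata} {D : Numbers S} {m : ℕ} {C : Classes D m} {C' : Classes D (m + 1)}

/-- For `cls Z x = A ^ (k - 1) . x`: the restriction of the class `A ^ (k - 1) . t`, `t` a family of
classes of divisors on the strata `T`. -/
def resAt (R : Restr C C') (cls : ∀ Z, C'.N Z → O.A) (t : ∀ Y, C.N Y) : O.A :=
  ∑ Z, ∑ i : Fin (m + 2), (-1 : F) ^ (i : ℕ) • cls Z (R.restr i Z (t (S.face m i Z)))

/-- For `cls Z x = A ^ (k - 1) . x`: the Gysin image of the class `A ^ (k - 1) . c`, `c` a cochain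
on `K (m + 2)`. -/
noncomputable def gysAt (cls : ∀ Z, C'.N Z → O.A) (c : S.K (m + 2) → F) : O.A :=
  ∑ Z, ∑ p : S.Over (m + 1) Z, S.gysin F (m + 1) c Z p • cls Z (C'.div Z p)

/-- `i = 2 k` with `k ≥ 1`: `cls Z x` is the class `A ^ (k - 1) . x` on `Z`, `x` a class of
divisors, and `alg` is the span of the restrictions of the classes `A ^ (k - 1) . t`, `t` a class
of divisors on the strata `T`. `im_gys`, `ker_gys`: the differential of `A ^ (k - 1) . c`, `c` a
cocycle on `K (m + 2)`, is its Gysin image, and it is orthogonal to the kernel of the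
differential. -/
structure Alg (R : Restr C C') (alg : Submodule F O.A) where
  cls : ∀ Z, C'.N Z → O.A
  cls_add : ∀ Z x y, cls Z (x + y) = cls Z x + cls Z y
  form_cls : ∀ Z x y, O.form (cls Z x) (cls Z y) = (C'.num Z x y : F)
  form_ne : ∀ Z Z', Z ≠ Z' → ∀ x y, O.form (cls Z x) (cls Z' y) = 0
  alg_eq : alg = Submodule.span F (Set.range (O.resAt R cls))
  im_gys : ∀ c : S.K (m + 2) → F, S.delta F (m + 2) c = 0 → (O.gysAt cls c, 0) ∈ O.im
  ker_gys : ∀ z ∈ O.ker, ∀ c : S.K (m + 2) → F, S.delta F (m + 2) c = 0 →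
    O.form z.1 (O.gysAt cls c) = 0

end

/-- `i = 2 k + 1`: `cls v` is the class `A ^ k . v` on the strata `Z`, `v` in `V = ⊕ H¹(Z)`, and `alg`
is the image of the classes `A ^ k . u`, `u` in `U = ⊕ H¹(T)`, under the restriction; with Rosati
data for the strata `T` and `Z`. (More generally `U` and `V` can be given by any abelian varieties
such that `form` is the Weil form of a polarisation.) -/
structure Ros (alg : Submodule F O.A) where
  E : Type
  U : Type
  V : Type
  W : Type
  T : Type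
  [ringE : Ring E]
  [algE : Algebra ℚ E]
  [starE : StarRing E]
  [grpU : AddCommGroup U]
  [modU : Module F U]
  [grpV : AddCommGroup V]
  [modV : Module F V]
  [grpW : AddCommGroup W]
  [modW : Module F W]
  [grpT : AddCommGroup T]
  [modT : Module F T]
  rosati : RosatiData F E U V W T
  cls : V →ₗ[F] O.A
  form_cls : ∀ v v', O.form (cls v) (cls v') = rosati.BV v v'
  alg_eq : alg = (LinearMap.range rosati.δ).map cls

attribute [instance] Ros.ringE Ros.algE Ros.starE Ros.grpU Ros.modU Ros.grpV Ros.modV Ros.grpW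
  Ros.modW Ros.grpT Ros.modT

/-- The image of the restriction `⊕ H^i(T) → A` is the sum of `alg`, which is zero, or given by
classes of divisors, or by the first cohomology, and a part `M`, orthogonal to it, which is zero
or obeys the Frobenius condition. -/
def Good {S : Strata} (D : Numbers S) (m : ℕ) : Prop :=
  ∃ alg M : Submodule F O.A, O.imT = alg ⊔ M ∧ (∀ x ∈ alg, ∀ y ∈ M, O.form x y = 0) ∧
    (alg = ⊥ ∨ Nonempty (O.Ros alg) ∨ ∃ (C : Classes D m) (C' : Classes D (m + 1))
      (R : Restr C C'), Nonempty (O.Alg R alg)) ∧ (M = ⊥ ∨ FrobPart O.form M)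

/-- The form as a bilinear form. -/
def frm : O.A →ₗ[F] O.A →ₗ[F] F :=
  LinearMap.mk₂ F O.form O.form_add O.form_smul
    (fun x y y' => by rw [O.comm, O.form_add, mul_add, ← O.comm, ← O.comm])
    (fun a x y => by rw [O.comm, O.form_smul, smul_eq_mul, O.comm y x]; ring)

theorem frm_apply (x y : O.A) : O.frm x y = O.form x y := rfl

variable {O}

namespace Alg

variable {S : Strata} {D : Numbers S} {m : ℕ} {C : Classes D m} {C' : Classes D (m + 1)}
  {R : Restr C C'} {alg : Submodule F O.A} (a : O.Alg R alg)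

/-- `cls` as a homomorphism -/
def cl (Z : S.K (m + 1)) : C'.N Z →+ O.A := AddMonoidHom.mk' (a.cls Z) (a.cls_add Z)

theorem cl_rat [CharZero F] (Z : S.K (m + 1)) (q : ℚ) (x : C'.N Z) :
    a.cl Z (q • x) = (q : F) • a.cl Z x := by
  have := map_ratCast_smul (a.cl Z) ℚ F q x
  simpa using this

/-- The restrictions as a homomorphism. -/
def res : (∀ Y, C.N Y) →+ O.A where
  toFun t := ∑ Z, ∑ i : Fin (m + 2), (-1 : F) ^ (i : ℕ) • a.cls Z (R.restr i Z (t (S.face m i Z)))
  map_zero' := by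
    refine Finset.sum_eq_zero fun Z _ => Finset.sum_eq_zero fun i _ => ?_
    have h1 : R.restr i Z 0 = 0 := map_zero (R.res i Z)
    have h2 : a.cls Z 0 = 0 := map_zero (a.cl Z)
    rw [Pi.zero_apply, h1, h2, smul_zero]
  map_add' t t' := by
    rw [← Finset.sum_add_distrib]
    refine Finset.sum_congr rfl fun Z _ => ?_
    rw [← Finset.sum_add_distrib]
    refine Finset.sum_congr rfl fun i _ => ?_
    rw [Pi.add_apply, R.restr_add, a.cls_add, smul_add]

/-- The Gysin images. -/
noncomputable def gys (c : S.K (m + 2) → F) : O.A := O.gysAt a.cls c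

theorem res_eq [CharZero F] (t : ∀ Y, C.N Y) : a.res t = ∑ Z, a.cl Z (R.rho t Z) := by
  refine Finset.sum_congr rfl fun Z _ => ?_
  rw [Restr.rho, map_sum]
  refine Finset.sum_congr rfl fun i _ => ?_
  rw [a.cl_rat]
  push_cast
  rfl

theorem gys_eq [CharZero F] (c : S.K (m + 2) → ℚ) :
    a.gys (fun W => (c W : F)) = ∑ Z, a.cl Z (R.gys c Z) := by
  refine Finset.sum_congr rfl fun Z _ => ?_
  rw [Restr.gys, map_sum]
  refine Finset.sum_congr rfl fun p _ => ?_
  rw [a.cl_rat]
  simp only [Strata.gysin]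
  push_cast
  rfl

theorem form_sum [CharZero F] (x y : ∀ Z, C'.N Z) :
    O.frm (∑ Z, a.cl Z (x Z)) (∑ Z, a.cl Z (y Z)) = ((∑ Z, C'.form Z (x Z) (y Z) : ℚ) : F) := by
  classical
  have h1 : O.frm (∑ Z, a.cl Z (x Z)) = ∑ Z, O.frm (a.cl Z (x Z)) := map_sum _ _ _
  rw [h1, LinearMap.sum_apply, Rat.cast_sum]
  refine Finset.sum_congr rfl fun Z _ => ?_
  rw [map_sum, Finset.sum_eq_single Z]
  · exact a.form_cls Z _ _
  · intro Z' _ h
    exact a.form_ne Z Z' (fun e => h e.symm) _ _
  · intro h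
    exact absurd (Finset.mem_univ _) h

/-- An element of `alg` orthogonal to `alg` is the Gysin image of a cocycle. -/
theorem radical [CharZero F] (hD : D.IsPolarised) (x : O.A) (hx : x ∈ alg)
    (h : ∀ y ∈ alg, O.frm x y = 0) :
    ∃ c : S.K (m + 2) → F, S.delta F (m + 2) c = 0 ∧ a.gys c = x := by
  classical
  let b := Module.Basis.ofVectorSpace ℚ F
  have hmem : ∀ t, a.res t ∈ alg := by
    intro t
    exact a.alg_eq.ge (Submodule.subset_span ⟨t, rfl⟩)
  obtain ⟨u, hu⟩ := exists_coords a.res b x (a.alg_eq.le hx)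
  have h4 : ∀ i ∈ u.support, ∀ t' : ∀ Y, C.N Y,
      ∑ Z, C'.form Z (R.rho (u i) Z) (R.rho t' Z) = 0 := by
    intro i hi t'
    have h5 := h _ (hmem t')
    have h6 : O.frm x (a.res t') =
        ∑ i ∈ u.support, (∑ Z, C'.form Z (R.rho (u i) Z) (R.rho t' Z)) • b i := by
      rw [hu, Finsupp.sum, map_sum, LinearMap.sum_apply]
      refine Finset.sum_congr rfl fun i _ => ?_
      rw [map_smul, LinearMap.smul_apply, a.res_eq, a.res_eq, a.form_sum, smul_eq_mul,
        Rat.smul_def, mul_comm]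
    rw [h6] at h5
    exact linearIndependent_iff'.1 b.linearIndependent _ _ h5 i hi
  have h8 : ∀ i, ∃ c : S.K (m + 2) → ℚ, i ∈ u.support → S.delta ℚ (m + 2) c = 0 ∧
      ∀ Z, R.rho (u i) Z = R.gys c Z := by
    intro i
    by_cases hi : i ∈ u.support
    · obtain ⟨c, hc⟩ := R.main hD (u i) (h4 i hi)
      exact ⟨c, fun _ => hc⟩
    · exact ⟨0, fun h => absurd h hi⟩
  choose c' hc' using h8
  refine ⟨∑ i ∈ u.support, b i • fun W => (c' i W : F), ?_, ?_⟩
  · rw [map_sum]
    refine Finset.sum_eq_zero fun i hi => ?_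
    rw [map_smul]
    have h9 : S.delta F (m + 2) (fun W => (c' i W : F)) = 0 := by
      funext P
      rw [Coh.delta_cast, (hc' i hi).1]
      simp
    rw [h9, smul_zero]
  · have hlin : ∀ (s : Finset _) (g : _ → S.K (m + 2) → F),
        a.gys (∑ i ∈ s, b i • g i) = ∑ i ∈ s, b i • a.gys (g i) := by
      intro s g
      induction s using Finset.induction_on with
      | empty =>
        rw [Finset.sum_empty, Finset.sum_empty]
        refine Finset.sum_eq_zero fun Z _ => Finset.sum_eq_zero fun p _ => ?_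
        rw [Strata.gysin, Pi.zero_apply, mul_zero, zero_smul]
      | insert i s hi ih =>
        rw [Finset.sum_insert hi, Finset.sum_insert hi, ← ih]
        simp only [gys, gysAt, Finset.smul_sum, ← Finset.sum_add_distrib]
        refine Finset.sum_congr rfl fun Z _ => Finset.sum_congr rfl fun p _ => ?_
        rw [smul_smul, ← add_smul]
        simp only [Strata.gysin, Pi.add_apply, Pi.smul_apply, smul_eq_mul]
        congr 1
        ring
    rw [hlin, hu, Finsupp.sum]
    refine Finset.sum_congr rfl fun i hi => ?_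
    rw [a.gys_eq, a.res_eq]
    congr 1
    refine Finset.sum_congr rfl fun Z _ => ?_
    rw [(hc' i hi).2 Z]

end Alg

theorem form_swap {x y : O.A} (h : O.frm x y = 0) : O.frm y x = 0 := by
  rw [frm_apply] at h ⊢
  rw [O.comm, h, mul_zero]

variable {S : Strata} {D : Numbers S} {m : ℕ}

/-- The radical of the image of the restriction. -/
theorem rad [CharZero F] (hD : D.IsPolarised) (hO : O.Good D m) (y : O.A) (hy : y ∈ O.imT)
    (h : ∀ y' ∈ O.imT, O.frm y y' = 0) :
    (y, (0 : O.B)) ∈ O.im ∧ ∀ z ∈ O.ker, O.frm z.1 y = 0 := by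
  obtain ⟨alg, M, hsup, horth, halg, hM⟩ := hO
  rw [hsup] at hy
  obtain ⟨s, hs, μ, hμ, rfl⟩ := Submodule.mem_sup.1 hy
  have hle1 : alg ≤ O.imT := by
    rw [hsup]
    exact le_sup_left
  have hle2 : M ≤ O.imT := by
    rw [hsup]
    exact le_sup_right
  have hμ0 : μ = 0 := by
    refine FrobPart.nondeg_left O.frm O.frm_apply hM μ hμ fun m' hm' => ?_
    have h1 := h m' (hle2 hm')
    rw [map_add, LinearMap.add_apply, frm_apply, horth s hs m' hm', zero_add] at h1
    exact h1
  subst hμ0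
  rw [add_zero] at h ⊢
  rcases halg with h0 | ⟨⟨b⟩⟩ | ⟨C, C', R, ⟨a⟩⟩
  · have hs0 : s = 0 := by
      rw [h0] at hs
      exact hs
    subst hs0
    refine ⟨O.im.zero_mem, fun z _ => map_zero _⟩
  · obtain ⟨_, ⟨u, rfl⟩, hu⟩ := b.alg_eq.le hs
    have h1 : b.rosati.δ u = 0 := by
      refine b.rosati.polarised u fun u' => ?_
      rw [← b.form_cls, hu]
      exact h _ (hle1 (b.alg_eq.ge ⟨_, ⟨u', rfl⟩, rfl⟩))
    have hs0 : s = 0 := by
      rw [← hu, h1, map_zero]
    subst hs0
    exact ⟨O.im.zero_mem, fun z _ => map_zero _⟩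
  · obtain ⟨c, hc, rfl⟩ := a.radical hD s hs fun y' hy' => h y' (hle1 hy')
    exact ⟨a.im_gys c hc, fun z hz => a.ker_gys z hz c hc⟩

theorem inj [CharZero F] (hD : D.IsPolarised) (hO : O.Good D m) :
    Inj2 O.topKer O.im O.ker O.botIm := by
  refine ⟨⟨le_inf O.im_le' O.im_le, sup_le O.imT_le O.im_le, inf_le_right, le_sup_right⟩, ?_⟩
  intro a ha hab
  obtain ⟨⟨y, y0⟩, ⟨hy, hy0⟩, u, hu, rfl⟩ := Submodule.mem_sup.1 hab
  have hy0' : y0 = 0 := hy0
  subst hy0'
  have h1 : y ∈ O.kerT := by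
    have h2 : y + u.1 ∈ O.kerT := ha.1.1
    have h3 : u.1 ∈ O.kerT := (O.im_le' hu).1
    have h4 := O.kerT.sub_mem h2 h3
    rwa [add_sub_cancel_right] at h4
  exact O.im.add_mem (rad hD hO y hy fun y' hy' => O.orth y h1 y' hy').1 hu

theorem bij [CharZero F] (hD : D.IsPolarised) (hO : O.Good D m) :
    O.LefInj ↔ Bij2 O.topKer O.im O.ker O.botIm := by
  constructor
  · intro hL
    refine ⟨inj hD hO, fun z hz => ?_⟩
    obtain ⟨y, hy, h⟩ := exists_proj_of_radical' O.frm O.imT z.1 (fun y hy h =>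
      (rad hD hO y hy fun y' hy' => form_swap (h y' hy')).2 z hz)
    have h1 : ((y, 0) : O.A × O.B) ∈ O.imT.prod ⊥ := ⟨hy, rfl⟩
    have h2 : z - (y, 0) ∈ O.ker := O.ker.sub_mem hz (O.imT_le h1)
    refine ⟨z - (y, 0), ⟨⟨hL _ h2 fun y' hy' => ?_, trivial⟩, h2⟩, ?_⟩
    · show O.frm (z.1 - y) y' = 0
      rw [map_sub, LinearMap.sub_apply, h y' hy', sub_self]
    · rw [sub_sub_cancel]
      exact Submodule.mem_sup_left h1
  · rintro ⟨-, h⟩ z hz hz'
    obtain ⟨a, ha, hza⟩ := h z hz
    obtain ⟨⟨y, y0⟩, ⟨hy, hy0⟩, u, hu, hyu⟩ := Submodule.mem_sup.1 hza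
    have hy0' : y0 = 0 := hy0
    subst hy0'
    have h1 : z.1 = a.1 + u.1 + y := by
      have h2 := congrArg Prod.fst hyu
      have h3 : y + u.1 = z.1 - a.1 := h2
      rw [← sub_add_cancel z.1 a.1, ← h3]
      abel
    have ha' : a.1 ∈ O.kerT := ha.1.1
    have hu' : u.1 ∈ O.kerT := (O.im_le' hu).1
    have h4 := (rad hD hO y hy fun y' hy' => by
      have h5 : O.frm z.1 y' = 0 := hz' y' hy'
      rw [h1, map_add, LinearMap.add_apply, frm_apply,
        O.orth _ (O.kerT.add_mem ha' hu') y' hy', zero_add] at h5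
      exact h5).1
    have h6 : y ∈ O.kerT := (O.im_le' h4).1
    rw [h1]
    exact O.kerT.add_mem (O.kerT.add_mem ha' hu') h6

end Row

end Pool.Agent.MP_f8720a_ag
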